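import Pool.Agent.Helper57.FP.TreeMain

/-!
# From the tree theorem to fractional powers
-/

set_option autoImplicit false

open Finset Real

namespace Pool.Agent.Helper57.FP

/-- The function `s`. -/
noncomputable def sf (D : ℕ) (e : ℕ → ℝ) (i x : ℕ) : ℕ :=
  if i = 0 then D + x else max ⌈(x : ℝ) ^ (e i / e (i - 1))⌉₊ (x + 1)

theorem lt_sf {D : ℕ} (hD : 0 < D) (e : ℕ → ℝ) (i x : ℕ) : x < sf D e i x := by
  unfold sf
  split_ifs
  · omega
  · exact lt_of_lt_of_le (Nat.lt_succ_self x) (le_max_right _ _)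

theorem sf_succ_le {D : ℕ} {e : ℕ → ℝ} {i x b : ℕ} (hb : e (i + 1) / e i ≤ b) (hb1 : 1 ≤ b)
    (hx : 1 ≤ x) : sf D e (i + 1) x ≤ x ^ b + 1 := by
  unfold sf
  rw [if_neg (Nat.succ_ne_zero i), Nat.add_sub_cancel]
  apply max_le
  · rw [Nat.ceil_le]
    have hx1 : (1 : ℝ) ≤ x := by exact_mod_cast hx
    calc (x : ℝ) ^ (e (i + 1) / e i) ≤ (x : ℝ) ^ (b : ℝ) :=
          Real.rpow_le_rpow_of_exponent_le hx1 hb
      _ = ((x ^ b : ℕ) : ℝ) := by rw [Real.rpow_natCast]; push_cast; rfl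
      _ ≤ _ := by push_cast; linarith
  · have : x ^ 1 ≤ x ^ b := Nat.pow_le_pow_right hx hb1
    rw [pow_one] at this
    omega

theorem rpow_diff_ge {x β : ℝ} (hx : 0 < x) (hβ : 1 ≤ β) : x ^ β + x ^ (β - 1) ≤ (x + 1) ^ β := by
  have h1 : 1 + β * (1 / x) ≤ (1 + 1 / x) ^ β := by
    apply one_add_mul_self_le_rpow_one_add
    · have : 0 < 1 / x := by positivity
      linarith
    · exact hβ
  have h2 : (x + 1) ^ β = x ^ β * (1 + 1 / x) ^ β := by
    rw [← Real.mul_rpow hx.le (by positivity)]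
    congr 1
    field_simp
  have h3 : x ^ (β - 1) = x ^ β * (1 / x) := by
    rw [Real.rpow_sub_one hx.ne']; ring
  rw [h2, h3]
  have h4 : 0 < x ^ β := Real.rpow_pos_of_pos hx _
  have h5 : 0 < 1 / x := by positivity
  calc x ^ β + x ^ β * (1 / x) = x ^ β * (1 + 1 * (1 / x)) := by ring
    _ ≤ x ^ β * (1 + β * (1 / x)) := by gcongr
    _ ≤ x ^ β * (1 + 1 / x) ^ β := mul_le_mul_of_nonneg_left h1 h4.le

theorem exists_real_params (r : ℕ) (e : ℕ → ℝ) (he0 : ∀ i < r, 0 < e i)
    (hmono : ∀ i, i + 1 < r → e i < e (i + 1)) :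
    ∃ a b : ℕ, 1 ≤ a ∧ 1 ≤ b ∧ ∀ i, i + 1 < r →
      3 ≤ a * (e (i + 1) / e i - 1) ∧ e (i + 1) / e i ≤ b := by
  have key : ∀ t : ℕ, ∃ a b : ℕ, 1 ≤ a ∧ 1 ≤ b ∧ ∀ i < t, i + 1 < r →
      3 ≤ a * (e (i + 1) / e i - 1) ∧ e (i + 1) / e i ≤ b := by
    intro t
    induction t with
    | zero => exact ⟨1, 1, le_rfl, le_rfl, fun i hi => absurd hi (Nat.not_lt_zero i)⟩
    | succ t ih =>
      obtain ⟨a, b, ha, hb, h⟩ := ih
      by_cases ht : t + 1 < r
      · have h0 : 0 < e t := he0 t (by omega)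
        have h1 : 0 < e (t + 1) / e t - 1 := by
          rw [sub_pos, one_lt_div h0]; exact hmono t ht
        refine ⟨max a ⌈3 / (e (t + 1) / e t - 1)⌉₊, max b ⌈e (t + 1) / e t⌉₊,
          ha.trans (le_max_left _ _), hb.trans (le_max_left _ _), ?_⟩
        intro i hi hir
        rcases Nat.lt_succ_iff_lt_or_eq.mp hi with h' | rfl
        · obtain ⟨h2, h3⟩ := h i h' hir
          have h4 : 0 < e (i + 1) / e i - 1 := by
            rw [sub_pos, one_lt_div (he0 i (by omega))]; exact hmono i hir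
          constructor
          · refine h2.trans ?_
            apply mul_le_mul_of_nonneg_right _ h4.le
            exact_mod_cast le_max_left _ _
          · refine h3.trans ?_
            exact_mod_cast le_max_left _ _
        · constructor
          · have h5 : 3 / (e (i + 1) / e i - 1) ≤ (max a ⌈3 / (e (i + 1) / e i - 1)⌉₊ : ℕ) := by
              refine (Nat.le_ceil _).trans ?_
              exact_mod_cast le_max_right _ _
            rwa [div_le_iff₀ h1] at h5
          · refine (Nat.le_ceil _).trans ?_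
            exact_mod_cast le_max_right _ _
      · refine ⟨a, b, ha, hb, ?_⟩
        intro i hi hir
        exact h i (by omega) hir
  obtain ⟨a, b, ha, hb, h⟩ := key r
  exact ⟨a, b, ha, hb, fun i hi => h i (by omega) hi⟩

/-- growth of the tree -/
theorem growth {r B a b : ℕ} {e : ℕ → ℝ} (hB : 2 ≤ B) (ha : 1 ≤ a) (hb : 1 ≤ b)
    (h : ∀ i, i + 1 < r → e (i + 1) / e i ≤ b) (u : Fin r → Fin (B ^ 2)) :
    ∀ i < r, X (sf (B ^ a) e) u i ≤ B ^ ((a + 3) * (b + 3) ^ i) ∧
      sf (B ^ a) e i (X (sf (B ^ a) e) u i) + B ^ 2 ≤ B ^ ((a + 3) * (b + 3) ^ (i + 1)) := by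
  have hBpos : 0 < B := by omega
  have hD : 0 < B ^ a := by positivity
  have hadd : ∀ m n : ℕ, 1 ≤ m → 1 ≤ n → B ^ m + B ^ n ≤ B ^ (m + n) := by
    intro m n hm hn
    have h1 : 2 ≤ B ^ m := by
      calc 2 ≤ B := hB
        _ = B ^ 1 := (pow_one B).symm
        _ ≤ B ^ m := Nat.pow_le_pow_right hBpos hm
    have h2 : 2 ≤ B ^ n := by
      calc 2 ≤ B := hB
        _ = B ^ 1 := (pow_one B).symm
        _ ≤ B ^ n := Nat.pow_le_pow_right hBpos hn
    rw [pow_add]
    nlinarith
  intro i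
  induction i with
  | zero =>
    intro _
    constructor
    · rw [X_zero]; positivity
    · rw [X_zero]
      unfold sf
      rw [if_pos rfl, add_zero]
      calc B ^ a + B ^ 2 ≤ B ^ (a + 2) := hadd a 2 ha (by norm_num)
        _ ≤ _ := by
            apply Nat.pow_le_pow_right hBpos
            rw [zero_add, pow_one]
            nlinarith
  | succ i ih =>
    intro hi
    obtain ⟨h1, h2⟩ := ih (by omega)
    have h3 : X (sf (B ^ a) e) u (i + 1) ≤ B ^ ((a + 3) * (b + 3) ^ (i + 1)) := by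
      rw [X_succ _ _ (by omega : i < r)]
      have := (u ⟨i, by omega⟩).2
      omega
    refine ⟨h3, ?_⟩
    have h4 : 1 ≤ X (sf (B ^ a) e) u (i + 1) := by
      have := X_strictMono (lt_sf hD e) u (Nat.succ_pos i)
      rw [X_zero] at this
      exact this
    have h5 := sf_succ_le (D := B ^ a) (h i (by omega)) hb h4
    calc sf (B ^ a) e (i + 1) (X (sf (B ^ a) e) u (i + 1)) + B ^ 2
        ≤ (X (sf (B ^ a) e) u (i + 1)) ^ b + 1 + B ^ 2 := by omega
      _ ≤ (B ^ ((a + 3) * (b + 3) ^ (i + 1))) ^ b + B ^ 3 := by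
          have h6 := Nat.pow_le_pow_left h3 b
          have h7 : 1 + B ^ 2 ≤ B ^ 3 := by
            have : 4 ≤ B ^ 2 := by nlinarith
            have h8 : B ^ 3 = B * B ^ 2 := by ring
            nlinarith
          omega
      _ = B ^ ((a + 3) * (b + 3) ^ (i + 1) * b) + B ^ 3 := by rw [← pow_mul]
      _ ≤ B ^ ((a + 3) * (b + 3) ^ (i + 1) * b + 3) :=
          hadd _ _ (Nat.mul_pos (by positivity) hb) (by norm_num)
      _ ≤ _ := by
          apply Nat.pow_le_pow_right hBpos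
          have h9 : 1 ≤ (a + 3) * (b + 3) ^ (i + 1) := Nat.mul_pos (by omega) (by positivity)
          rw [pow_succ (b + 3) (i + 1)]
          nlinarith

/-- The tree points are the integer parts of powers of the last point. -/
theorem tree_floor {r B a : ℕ} {e : ℕ → ℝ} (hB : 2 ≤ B) (he0 : ∀ i < r, 0 < e i)
    (hmono : ∀ i, i + 1 < r → e i < e (i + 1)) (hlast : e (r - 1) = 1)
    (h3 : ∀ i, i + 1 < r → 3 ≤ a * (e (i + 1) / e i - 1))
    (u : Fin r → Fin (B ^ 2)) :
    ∀ j i, i + j + 1 = r →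
      ⌊((X (sf (B ^ a) e) u r : ℕ) : ℝ) ^ e i⌋₊ = X (sf (B ^ a) e) u (i + 1) := by
  have hBpos : 0 < B := by omega
  have hD : 0 < B ^ a := by positivity
  have hBr : (2 : ℝ) ≤ B := by exact_mod_cast hB
  set x := X (sf (B ^ a) e) u with hx
  have hxm : StrictMono x := X_strictMono (lt_sf hD e) u
  have hx1 : ∀ i, 0 < i → 0 < r → B ^ a ≤ x i := by
    intro i hi hr
    have h4 : x 1 ≤ x i := hxm.monotone hi
    have h5 : x 1 = sf (B ^ a) e 0 0 + (u ⟨0, hr⟩ : ℕ) := by
      rw [hx]; exact X_succ (sf (B ^ a) e) u hr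
    have h6 : sf (B ^ a) e 0 0 = B ^ a := by unfold sf; simp
    omega
  have main : ∀ j i, i + j + 1 = r → (x (i + 1) : ℝ) ≤ (x r : ℝ) ^ e i ∧
      (x r : ℝ) ^ e i < x (i + 1) + 1 := by
    intro j
    induction j with
    | zero =>
      intro i hi
      have h1 : i = r - 1 := by omega
      have h2 : i + 1 = r := by omega
      rw [h1, hlast, Real.rpow_one]
      have h4 : r - 1 + 1 = r := by omega
      rw [h4]
      exact ⟨le_rfl, by linarith⟩
    | succ j ih =>
      intro i hi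
      obtain ⟨h1, h2⟩ := ih (i + 1) (by omega)
      have hi1 : i + 1 < r := by omega
      have hr : 0 < r := by omega
      have he := he0 i (by omega)
      have he1 := he0 (i + 1) hi1
      set β := e (i + 1) / e i with hβ
      have hβ1 : 1 < β := by rw [hβ, one_lt_div he]; exact hmono i hi1
      have hβ0 : 0 < β := by linarith
      have hxr : (0 : ℝ) ≤ x r := by positivity
      -- relation between the powers
      have h4 : (x r : ℝ) ^ e i = ((x r : ℝ) ^ e (i + 1)) ^ (1 / β) := by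
        rw [← Real.rpow_mul hxr]
        congr 1
        rw [hβ]
        field_simp
      have hxi : 0 < x (i + 1) := by
        have := hx1 (i + 1) (by omega) hr
        omega
      have hxir : (0 : ℝ) < x (i + 1) := by exact_mod_cast hxi
      have h5 : x (i + 1 + 1) = sf (B ^ a) e (i + 1) (x (i + 1)) + (u ⟨i + 1, hi1⟩ : ℕ) := by
        rw [hx]; exact X_succ (sf (B ^ a) e) u hi1
      have h6 : sf (B ^ a) e (i + 1) (x (i + 1)) = max ⌈(x (i + 1) : ℝ) ^ β⌉₊ (x (i + 1) + 1) := by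
        unfold sf
        rw [if_neg (Nat.succ_ne_zero i), Nat.add_sub_cancel]
      have h7 : (x (i + 1) : ℝ) ^ β ≤ x (i + 1 + 1) := by
        refine (Nat.le_ceil _).trans ?_
        have : ⌈(x (i + 1) : ℝ) ^ β⌉₊ ≤ x (i + 1 + 1) := by
          rw [h5, h6]
          exact (le_max_left _ _).trans (Nat.le_add_right _ _)
        exact_mod_cast this
      have h8 : ((x (i + 1 + 1) : ℕ) : ℝ) + 1 ≤ ((x (i + 1) : ℝ) + 1) ^ β := by
        have h9 := rpow_diff_ge hxir hβ1.le
        have h10 : (B : ℝ) ^ 3 ≤ (x (i + 1) : ℝ) ^ (β - 1) := by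
          have h11 : ((B : ℝ) ^ a) ≤ x (i + 1) := by
            have := hx1 (i + 1) (by omega) hr
            exact_mod_cast this
          calc (B : ℝ) ^ 3 = (B : ℝ) ^ (3 : ℝ) := by
                rw [← Real.rpow_natCast]; norm_num
            _ ≤ (B : ℝ) ^ (a * (β - 1)) :=
                Real.rpow_le_rpow_of_exponent_le (by linarith) (h3 i hi1)
            _ = ((B : ℝ) ^ a) ^ (β - 1) := by
                rw [Real.rpow_mul (by linarith), Real.rpow_natCast]
            _ ≤ (x (i + 1) : ℝ) ^ (β - 1) :=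
                Real.rpow_le_rpow (by positivity) h11 (by linarith)
        have h12 : ((sf (B ^ a) e (i + 1) (x (i + 1)) : ℕ) : ℝ) ≤ (x (i + 1) : ℝ) ^ β + 1 := by
          rw [h6]
          have h13 : ((⌈(x (i + 1) : ℝ) ^ β⌉₊ : ℕ) : ℝ) ≤ (x (i + 1) : ℝ) ^ β + 1 :=
            (Nat.ceil_lt_add_one (by positivity)).le
          have h14 : ((x (i + 1) + 1 : ℕ) : ℝ) ≤ (x (i + 1) : ℝ) ^ β + 1 := by
            push_cast
            have : (x (i + 1) : ℝ) ^ (1 : ℝ) ≤ (x (i + 1) : ℝ) ^ β :=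
              Real.rpow_le_rpow_of_exponent_le (by exact_mod_cast hxi) hβ1.le
            rw [Real.rpow_one] at this
            linarith
          push_cast
          push_cast at h13 h14
          exact max_le h13 h14
        have h15 : ((u ⟨i + 1, hi1⟩ : ℕ) : ℝ) ≤ (B : ℝ) ^ 2 - 1 := by
          have := (u ⟨i + 1, hi1⟩).2
          have h16 : (u ⟨i + 1, hi1⟩ : ℕ) + 1 ≤ B ^ 2 := this
          have h17 : (((u ⟨i + 1, hi1⟩ : ℕ) + 1 : ℕ) : ℝ) ≤ ((B ^ 2 : ℕ) : ℝ) := by
            exact_mod_cast h16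
          push_cast at h17
          linarith
        rw [h5]
        push_cast
        have h18 : (B : ℝ) ^ 2 + 1 ≤ (B : ℝ) ^ 3 := by nlinarith [sq_nonneg ((B : ℝ) - 1)]
        linarith
      constructor
      · rw [h4]
        calc (x (i + 1) : ℝ) = ((x (i + 1) : ℝ) ^ β) ^ (1 / β) := by
              rw [← Real.rpow_mul hxir.le, mul_one_div_cancel hβ0.ne', Real.rpow_one]
          _ ≤ (x (i + 1 + 1) : ℝ) ^ (1 / β) :=
              Real.rpow_le_rpow (by positivity) h7 (by positivity)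
          _ ≤ ((x r : ℝ) ^ e (i + 1)) ^ (1 / β) :=
              Real.rpow_le_rpow (by positivity) h1 (by positivity)
      · rw [h4]
        calc ((x r : ℝ) ^ e (i + 1)) ^ (1 / β) < ((x (i + 1 + 1) : ℝ) + 1) ^ (1 / β) :=
              Real.rpow_lt_rpow (by positivity) h2 (by positivity)
          _ ≤ (((x (i + 1) : ℝ) + 1) ^ β) ^ (1 / β) :=
              Real.rpow_le_rpow (by positivity) h8 (by positivity)
          _ = (x (i + 1) : ℝ) + 1 := by
              rw [← Real.rpow_mul (by positivity), mul_one_div_cancel hβ0.ne', Real.rpow_one]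
  intro j i hij
  obtain ⟨h1, h2⟩ := main j i hij
  rw [Nat.floor_eq_iff (by positivity)]
  exact ⟨h1, h2⟩

/-- Core: exponents given as an increasing list ending in `1`. -/
theorem core (δ : ℝ) (hδ : 0 < δ) (r : ℕ) (hr : 1 ≤ r) (e : ℕ → ℝ) (he0 : ∀ i < r, 0 < e i)
    (hmono : ∀ i, i + 1 < r → e i < e (i + 1)) (hlast : e (r - 1) = 1) :
    ∃ z0 : ℕ, ∀ z : ℕ, z0 ≤ z → ∀ A : Finset ℕ, (∀ p ∈ A, p.Prime ∧ p < 2 ^ z) →
    δ * ((2 : ℝ) ^ z / Real.log ((2 : ℝ) ^ z)) ≤ A.card →
    ∃ m ∈ A, ∃ n : ℕ, z ≤ n ∧ ∀ i < r, m + ⌊(n : ℝ) ^ e i⌋₊ ∈ A := by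
  obtain ⟨a, b, ha, hb, hab⟩ := exists_real_params r e he0 hmono
  obtain ⟨z0, hz0⟩ := tree_main δ hδ r ((a + 3) * (b + 3) ^ r) (Nat.mul_pos (by omega) (by positivity))
  refine ⟨max z0 2, ?_⟩
  intro z hz A hA hcard
  obtain ⟨β, hβ, hs⟩ := hz0 z ((le_max_left _ _).trans hz) A hA hcard
  have hz2 : 2 ≤ z := (le_max_right _ _).trans hz
  set B : ℕ := 2 ^ β with hB
  have hB2 : 2 ≤ B := hz2.trans hβ
  have hBpos : 0 < B := by omega
  have hD : 0 < B ^ a := by positivity
  obtain ⟨p, u, hpu⟩ := hs (sf (B ^ a) e) (lt_sf hD e) (by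
    intro i hi u
    refine ((growth hB2 ha hb (fun i hi => (hab i hi).2) u i hi).2).trans ?_
    have h1 : (2 : ℕ) ^ ((a + 3) * (b + 3) ^ r * β) = B ^ ((a + 3) * (b + 3) ^ r) := by
      rw [hB, ← pow_mul]; congr 1; ring
    rw [h1]
    apply Nat.pow_le_pow_right hBpos
    apply Nat.mul_le_mul_left
    exact Nat.pow_le_pow_right (by omega) hi)
  refine ⟨p, ?_, X (sf (B ^ a) e) u r, ?_, ?_⟩
  · have := hpu 0 (Nat.zero_le _)
    rwa [X_zero, add_zero] at this
  · have h1 : X (sf (B ^ a) e) u 1 ≤ X (sf (B ^ a) e) u r :=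
      (X_strictMono (lt_sf hD e) u).monotone hr
    have h2 : X (sf (B ^ a) e) u 1 = sf (B ^ a) e 0 0 + (u ⟨0, hr⟩ : ℕ) := X_succ (sf (B ^ a) e) u hr
    have h3 : sf (B ^ a) e 0 0 = B ^ a := by unfold sf; simp
    have h4 : B ≤ B ^ a := by
      calc B = B ^ 1 := (pow_one B).symm
        _ ≤ B ^ a := Nat.pow_le_pow_right hBpos ha
    omega
  · intro i hi
    rw [tree_floor hB2 he0 hmono hlast (fun i hi => (hab i hi).1) u (r - i - 1) i (by omega)]
    exact hpu (i + 1) hi

theorem exists_sorted (E : Finset ℝ) (hE : ∀ t ∈ E, 0 < t ∧ t ≤ 1) (h1 : (1 : ℝ) ∈ E) :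
    ∃ (r : ℕ) (e : ℕ → ℝ), 1 ≤ r ∧ (∀ i < r, 0 < e i) ∧ (∀ i, i + 1 < r → e i < e (i + 1)) ∧
      e (r - 1) = 1 ∧ ∀ t ∈ E, ∃ i < r, e i = t := by
  classical
  set r := E.card with hr
  have hr1 : 1 ≤ r := Finset.card_pos.mpr ⟨1, h1⟩
  set o := E.orderEmbOfFin hr.symm with ho
  refine ⟨r, fun i => if h : i < r then o ⟨i, h⟩ else 1, hr1, ?_, ?_, ?_, ?_⟩
  · intro i hi
    simp only [hi, dif_pos]
    exact (hE _ (Finset.orderEmbOfFin_mem E hr.symm _)).1
  · intro i hi
    have hi' : i < r := by omega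
    simp only [hi, hi', dif_pos]
    apply o.strictMono
    exact Nat.lt_succ_self i
  · have h2 : r - 1 < r := by omega
    simp only [h2, dif_pos]
    apply le_antisymm
    · exact (hE _ (Finset.orderEmbOfFin_mem E hr.symm _)).2
    · obtain ⟨j, hj⟩ : ∃ j, o j = 1 := by
        have : (1 : ℝ) ∈ Set.range o := by
          rw [ho, Finset.range_orderEmbOfFin]
          exact h1
        exact this
      rw [← hj]
      apply o.monotone
      rw [Fin.le_def]
      have := j.2
      simp only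
      omega
  · intro t ht
    obtain ⟨j, hj⟩ : ∃ j, o j = t := by
      have : t ∈ Set.range o := by
        rw [ho, Finset.range_orderEmbOfFin]
        exact ht
      exact this
    refine ⟨j, j.2, ?_⟩
    simp only [j.2, dif_pos]
    exact hj

/-- The relative version. -/
theorem relative (A : Set ℕ) [DecidablePred (· ∈ A)] (hA : ∀ p ∈ A, p.Prime) (δ : ℝ) (hδ : 0 < δ)
    (hd : ∃ᶠ x : ℕ in Filter.atTop,
      δ * ((x : ℝ) / Real.log x) ≤ ((range (x + 1)).filter (· ∈ A)).card)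
    (l : ℕ) (c : Fin l → ℝ) (hc : ∀ i, 0 < c i ∧ c i ≤ 1) (N : ℕ) :
    ∃ m ∈ A, ∃ n : ℕ, N ≤ n ∧ m + n ∈ A ∧ ∀ i, m + ⌊(n : ℝ) ^ c i⌋₊ ∈ A := by
  classical
  obtain ⟨r, e, hr, he0, hmono, hlast, hex⟩ := exists_sorted
    (insert 1 (Finset.univ.image c)) (by
      intro t ht
      rw [Finset.mem_insert, Finset.mem_image] at ht
      rcases ht with rfl | ⟨i, _, rfl⟩
      · norm_num
      · exact hc i) (Finset.mem_insert_self _ _)
  obtain ⟨z0, hz0⟩ := core (δ / 2) (by positivity) r hr e he0 hmono hlast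
  rw [Filter.frequently_atTop] at hd
  obtain ⟨x, hx, hxd⟩ := hd (2 ^ (max (max z0 N) 2))
  set z := Nat.log 2 x + 1 with hz
  have hxpos : 0 < x := lt_of_lt_of_le (by positivity) hx
  have h1 : 2 ^ (Nat.log 2 x) ≤ x := Nat.pow_log_le_self 2 hxpos.ne'
  have h2 : x < 2 ^ z := Nat.lt_pow_succ_log_self (by norm_num) x
  have h3 : max (max z0 N) 2 < z := by
    by_contra hne
    have : 2 ^ z ≤ 2 ^ (max (max z0 N) 2) := Nat.pow_le_pow_right (by norm_num) (not_lt.mp hne)
    omega
  have hz0' : z0 ≤ z := ((le_max_left _ _).trans (le_max_left _ _)).trans h3.le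
  have hzN : N ≤ z := ((le_max_right _ _).trans (le_max_left _ _)).trans h3.le
  have hz2 : 2 ≤ z := (le_max_right _ _).trans h3.le
  set F : Finset ℕ := (range (2 ^ z)).filter (· ∈ A) with hF
  obtain ⟨m, hm, n, hn, hall⟩ := hz0 z hz0' F
    (by
      intro p hp
      rw [hF, Finset.mem_filter, Finset.mem_range] at hp
      exact ⟨hA p hp.2, hp.1⟩)
    (by
      have h4 : ((range (x + 1)).filter (· ∈ A)).card ≤ F.card := by
        apply Finset.card_le_card
        apply Finset.filter_subset_filter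
        apply Finset.range_subset_range.mpr
        omega
      have h5 : (((range (x + 1)).filter (· ∈ A)).card : ℝ) ≤ F.card := by exact_mod_cast h4
      refine le_trans ?_ (hxd.trans h5)
      have h6 : (2 : ℝ) ≤ x := by
        have : 2 ≤ x := by
          calc 2 = 2 ^ 1 := rfl
            _ ≤ 2 ^ (max (max z0 N) 2) := Nat.pow_le_pow_right (by norm_num)
                (le_trans (by norm_num) (le_max_right _ _))
            _ ≤ x := hx
        exact_mod_cast this
      have h7 : (x : ℝ) ≤ 2 ^ z := by exact_mod_cast h2.le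
      have h8 : 0 < Real.log x := Real.log_pos (by linarith)
      have h9 : Real.log x ≤ Real.log (2 ^ z) := Real.log_le_log (by linarith) h7
      have h10 : (2 : ℝ) ^ z ≤ 2 * x := by
        rw [hz, pow_succ]
        have : ((2 : ℝ) ^ (Nat.log 2 x)) ≤ x := by exact_mod_cast h1
        linarith
      calc δ / 2 * ((2 : ℝ) ^ z / Real.log (2 ^ z)) ≤ δ / 2 * (2 * x / Real.log x) := by
            apply mul_le_mul_of_nonneg_left _ (by positivity)
            exact div_le_div₀ (by positivity) h10 h8 h9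
        _ = _ := by ring)
  have hFA : ∀ q ∈ F, q ∈ A := fun q hq => (Finset.mem_filter.mp hq).2
  refine ⟨m, hFA m hm, n, hzN.trans hn, ?_, ?_⟩
  · have := hall (r - 1) (by omega)
    rw [hlast, Real.rpow_one, Nat.floor_natCast] at this
    exact hFA _ this
  · intro i
    obtain ⟨j, hj, hje⟩ := hex (c i) (Finset.mem_insert_of_mem
      (Finset.mem_image_of_mem c (Finset.mem_univ i)))
    have := hall j hj
    rw [hje] at this
    exact hFA _ this

/-- Chebyshev's lower bound. -/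
theorem chebyshev_lower : ∀ᶠ x : ℕ in Filter.atTop,
    (1 / 4 : ℝ) * ((x : ℝ) / Real.log x) ≤ ((range (x + 1)).filter Nat.Prime).card := by
  have h1 : ∀ᶠ x : ℝ in Filter.atTop, Real.log x ≤ (1 / 8) * x := by
    have := Real.isLittleO_log_id_atTop.bound (c := 1 / 8) (by norm_num)
    filter_upwards [this, Filter.eventually_ge_atTop 1] with x hx hx1
    rw [Real.norm_of_nonneg (Real.log_nonneg hx1), id, Real.norm_of_nonneg (by linarith)] at hx
    exact hx
  have h2 : ∀ᶠ x : ℕ in Filter.atTop, Real.log (x : ℝ) ≤ (1 / 8) * x :=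
    tendsto_natCast_atTop_atTop.eventually h1
  filter_upwards [h2, Filter.eventually_ge_atTop 4] with x hx hx4
  have hx4' : (4 : ℝ) ≤ x := by exact_mod_cast hx4
  have hlog : 0 < Real.log x := Real.log_pos (by linarith)
  have h3 := Chebyshev.psi_ge x
  have h4 := Chebyshev.psi_le_primeCounting_mul_log x
  have h5 : ((range (x + 1)).filter Nat.Prime).card = Nat.primeCounting x := by
    rw [Nat.primeCounting, Nat.primeCounting', Nat.count_eq_card_filter_range]
  rw [h5]
  have h6 : Real.log ((x : ℝ) + 1) ≤ 2 * Real.log x := by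
    have : (x : ℝ) + 1 ≤ x ^ 2 := by nlinarith
    calc Real.log ((x : ℝ) + 1) ≤ Real.log ((x : ℝ) ^ 2) := Real.log_le_log (by linarith) this
      _ = 2 * Real.log x := by rw [Real.log_pow]; norm_num
  have h7 : (1 / 2 : ℝ) ≤ Real.log 2 := by
    have := Real.log_two_gt_d9; linarith
  have h8 : (1 / 4 : ℝ) * x ≤ (Nat.primeCounting x) * Real.log x := by
    have : (x : ℝ) * (1 / 2) ≤ x * Real.log 2 := mul_le_mul_of_nonneg_left h7 (by linarith)
    linarith
  rw [← mul_div_assoc, div_le_iff₀ hlog]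
  exact h8

end Pool.Agent.Helper57.FP
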