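import Pool.Agent.Helper57.FP.Shift

/-!
# The average of `Psi` over short intervals
-/

set_option autoImplicit false

open Finset Real

namespace Pool.Agent.Helper57.FP

open Pool.Agent.Helper44

theorem card_dvd_le (α : ℤ) {d : ℕ} (hd : 0 < d) (L : ℕ) :
    (((range L).filter (fun i : ℕ => (d : ℤ) ∣ α + i)).card : ℝ) ≤ (L : ℝ) / d + 1 := by
  set v : ℕ := ((-α) % d).toNat with hv
  have hd' : (d : ℤ) ≠ 0 := by exact_mod_cast hd.ne'
  have hv' : (v : ℤ) = (-α) % d := by
    rw [hv, Int.toNat_of_nonneg (Int.emod_nonneg _ hd')]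
  have h1 : ∀ i : ℕ, (d : ℤ) ∣ α + i ↔ i ≡ v [MOD d] := by
    intro i
    rw [← Int.natCast_modEq_iff, Int.modEq_iff_dvd, hv']
    have h2 : (d : ℤ) ∣ (-α) % d - (-α) := by
      rw [← Int.modEq_iff_dvd]
      exact (Int.mod_modEq _ _).symm
    constructor
    · intro h
      have := dvd_sub h2 h
      have h3 : (-α) % (d : ℤ) - (-α) - (α + i) = (-α) % (d : ℤ) - i := by ring
      rwa [h3] at this
    · intro h
      have := dvd_sub h2 h
      have h3 : (-α) % (d : ℤ) - (-α) - ((-α) % (d : ℤ) - i) = α + i := by ring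
      rwa [h3] at this
  have h2 : (range L).filter (fun i : ℕ => (d : ℤ) ∣ α + i) =
      (range L).filter (fun i : ℕ => i ≡ v [MOD d]) := Finset.filter_congr fun i _ => h1 i
  rw [h2, ← Nat.count_eq_card_filter_range, Nat.count_modEq_card L hd v]
  push_cast
  have h3 : ((L / d : ℕ) : ℝ) ≤ (L : ℝ) / d := Nat.cast_div_le
  have h4 : ((if v % d < L % d then 1 else 0 : ℕ) : ℝ) ≤ 1 := by
    split_ifs <;> simp
  push_cast at h4
  linarith

/-- Small primes part of `Psi`. -/
theorem Psi_le_small (s L : ℕ) (hL : 1 ≤ L) (t : ℤ) (ht : t.natAbs ≤ 4 ^ L) :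
    Psi s t ≤ Real.exp (2 * s) *
      ∏ q ∈ primesUpTo L, (1 + (if (q : ℤ) ∣ t then (2 : ℝ) ^ s / q else 0)) := by
  classical
  have hL0 : (0 : ℝ) < L := by exact_mod_cast hL
  have hpos : ∀ q : ℕ, (1 : ℝ) ≤ 1 + 1 / (q : ℝ) := fun q => by
    have : (0 : ℝ) ≤ 1 / (q : ℝ) := by positivity
    linarith
  have hb : ∀ q : ℕ, q.Prime → (1 + 1 / (q : ℝ)) ^ s ≤ 1 + (2 : ℝ) ^ s / q := by
    intro q hq
    have hq0 : (0 : ℝ) < 1 / (q : ℝ) := by
      have : (0 : ℝ) < q := by exact_mod_cast hq.pos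
      positivity
    have hq1 : 1 / (q : ℝ) ≤ 1 := by
      rw [div_le_one (by exact_mod_cast hq.pos)]
      exact_mod_cast hq.one_lt.le
    rw [show (2 : ℝ) ^ s / q = 2 ^ s * (1 / q) by ring]
    generalize 1 / (q : ℝ) = x at hq0 hq1
    have : ∀ n : ℕ, (1 + x) ^ n ≤ 1 + (2 ^ n - 1) * x := by
      intro n
      induction n with
      | zero => simp
      | succ n ih =>
        have h2 : (1 : ℝ) ≤ 2 ^ n := one_le_pow₀ (by norm_num)
        calc (1 + x) ^ (n + 1) = (1 + x) ^ n * (1 + x) := pow_succ _ _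
          _ ≤ (1 + (2 ^ n - 1) * x) * (1 + x) := by
              apply mul_le_mul_of_nonneg_right ih; linarith
          _ ≤ 1 + (2 ^ (n + 1) - 1) * x := by
              rw [pow_succ]
              nlinarith [mul_nonneg (sub_nonneg.mpr h2) (mul_nonneg hq0.le (sub_nonneg.mpr hq1))]
    have h3 := this s
    nlinarith
  have hfac : ∀ q : ℕ, (1 : ℝ) ≤ 1 + (if (q : ℤ) ∣ t then (2 : ℝ) ^ s / q else 0) := by
    intro q
    have : (0 : ℝ) ≤ (if (q : ℤ) ∣ t then (2 : ℝ) ^ s / q else 0) := by
      split_ifs <;> positivity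
    linarith
  have hone : (1 : ℝ) ≤ ∏ q ∈ primesUpTo L, (1 + (if (q : ℤ) ∣ t then (2 : ℝ) ^ s / q else 0)) :=
    one_le_prod_real _ _ fun q _ => hfac q
  rcases eq_or_ne t 0 with rfl | ht0
  · have h1 : Psi s 0 = 1 := by simp [Psi]
    rw [h1]
    have h2 : (1 : ℝ) ≤ Real.exp (2 * s) := Real.one_le_exp (by positivity)
    nlinarith
  · have ht0' : t.natAbs ≠ 0 := by simpa using ht0
    -- number of prime factors
    have hcard : t.natAbs.primeFactors.card ≤ 2 * L := by
      have h1 : 2 ^ t.natAbs.primeFactors.card ≤ ∏ q ∈ t.natAbs.primeFactors, q := by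
        rw [← Finset.prod_const]
        apply Finset.prod_le_prod
        · intro q _; norm_num
        · intro q hq
          exact (Nat.prime_of_mem_primeFactors hq).two_le
      have h2 : ∏ q ∈ t.natAbs.primeFactors, q ≤ t.natAbs :=
        Nat.le_of_dvd (Nat.pos_of_ne_zero ht0') (Nat.prod_primeFactors_dvd _)
      have h3 : 2 ^ t.natAbs.primeFactors.card ≤ 2 ^ (2 * L) := by
        rw [pow_mul]
        exact (h1.trans h2).trans ht
      exact (Nat.pow_le_pow_iff_right (by norm_num)).mp h3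
    unfold Psi
    rw [← Finset.prod_filter_mul_prod_filter_not t.natAbs.primeFactors (fun q => L < q)]
    apply mul_le_mul
    · calc ∏ q ∈ t.natAbs.primeFactors.filter (fun q => L < q), (1 + 1 / (q : ℝ)) ^ s
          ≤ ∏ _q ∈ t.natAbs.primeFactors.filter (fun q => L < q), Real.exp (s * (1 / L)) := by
            apply Finset.prod_le_prod
            · intro q _; positivity
            · intro q hq
              rw [Finset.mem_filter] at hq
              have h1 : (1 : ℝ) / q ≤ 1 / L := by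
                apply one_div_le_one_div_of_le hL0
                exact_mod_cast hq.2.le
              have h2 : 1 + 1 / (q : ℝ) ≤ Real.exp (1 / L) := by
                have := Real.add_one_le_exp (1 / (L : ℝ))
                linarith
              rw [Real.exp_nat_mul]
              exact pow_le_pow_left₀ (by positivity) h2 _
        _ = Real.exp (s * (1 / L)) ^ (t.natAbs.primeFactors.filter (fun q => L < q)).card := by
            rw [Finset.prod_const]
        _ ≤ Real.exp (s * (1 / L)) ^ (2 * L) := by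
            apply pow_le_pow_right₀ (Real.one_le_exp (by positivity))
            exact (Finset.card_filter_le _ _).trans hcard
        _ = Real.exp (2 * s) := by
            rw [← Real.exp_nat_mul]
            congr 1
            push_cast
            field_simp
    · calc ∏ q ∈ t.natAbs.primeFactors.filter (fun q => ¬ L < q), (1 + 1 / (q : ℝ)) ^ s
          ≤ ∏ q ∈ t.natAbs.primeFactors.filter (fun q => ¬ L < q),
            (1 + (if (q : ℤ) ∣ t then (2 : ℝ) ^ s / q else 0)) := by
            apply Finset.prod_le_prod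
            · intro q _; positivity
            · intro q hq
              rw [Finset.mem_filter] at hq
              have h1 : (q : ℤ) ∣ t := Int.natCast_dvd.mpr (Nat.dvd_of_mem_primeFactors hq.1)
              rw [if_pos h1]
              exact hb q (Nat.prime_of_mem_primeFactors hq.1)
        _ ≤ _ := by
            apply prod_le_prod_subset_real _ _ (fun q _ => hfac q)
            intro q hq
            rw [Finset.mem_filter] at hq
            rw [mem_primesUpTo hL0.le]
            refine ⟨Nat.prime_of_mem_primeFactors hq.1, ?_⟩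
            exact_mod_cast not_lt.mp hq.2
    · apply Finset.prod_nonneg
      intro q _; positivity
    · exact (Real.exp_pos _).le

theorem prod_one_add_ind (I : Finset ℕ) (hI : ∀ q ∈ I, q.Prime) (c : ℝ) (t : ℤ) :
    ∏ q ∈ I, (1 + (if (q : ℤ) ∣ t then c / q else 0)) =
      ∑ J ∈ I.powerset, (∏ q ∈ J, (c / (q : ℝ))) * (if ((∏ q ∈ J, q : ℕ) : ℤ) ∣ t then 1 else 0) := by
  classical
  rw [Finset.prod_one_add]
  apply Finset.sum_congr rfl
  intro J hJ
  rw [Finset.mem_powerset] at hJ
  have hco : ((∏ q ∈ J, q : ℕ) : ℤ) ∣ t ↔ ∀ q ∈ J, (q : ℤ) ∣ t := by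
    constructor
    · intro h q hq
      exact (Int.natCast_dvd_natCast.mpr (Finset.dvd_prod_of_mem _ hq)).trans h
    · intro h
      rw [Int.natCast_dvd]
      have h' : ∀ q ∈ J, q ∣ t.natAbs := fun q hq => Int.natCast_dvd.mp (h q hq)
      apply Finset.prod_primes_dvd
      · intro q hq
        exact (hI q (hJ hq)).prime
      · exact h'
  by_cases h : ∀ q ∈ J, (q : ℤ) ∣ t
  · rw [if_pos (hco.mpr h), mul_one]
    exact Finset.prod_congr rfl fun q hq => if_pos (h q hq)
  · rw [if_neg (fun h' => h (hco.mp h')), mul_zero]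
    push Not at h
    obtain ⟨q, hq, hq'⟩ := h
    exact Finset.prod_eq_zero hq (if_neg hq')

/-- The average of `Psi` over an interval of length `L` is bounded, provided the values are at most
`4 ^ L`. -/
theorem psi_avg (s : ℕ) : ∃ C : ℝ, 0 < C ∧ ∀ L : ℕ, 1 ≤ L → ∀ α : ℤ,
    (∀ i : ℕ, i < L → (α + i).natAbs ≤ 4 ^ L) → ∑ i ∈ range L, Psi s (α + i) ≤ C * L := by
  classical
  obtain ⟨C1, hC1, hM⟩ := sum_primesUpTo_bounds
  obtain ⟨C2, hC2, hS⟩ := sum_inv_sq_le
  -- log L ^ c ≤ C3 * L
  have hlog : ∃ C3 : ℝ, 0 < C3 ∧ ∀ L : ℕ, 2 ≤ L →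
      Real.exp (2 ^ s * (Real.log (Real.log L))) ≤ C3 * L := by
    have h1 : (fun x : ℝ => Real.log x ^ (2 ^ s)) =o[Filter.atTop] fun x : ℝ => x ^ (1 : ℝ) := by
      have := isLittleO_log_rpow_rpow_atTop (s := 1) ((2 ^ s : ℕ) : ℝ) (by norm_num)
      simp only [Real.rpow_natCast] at this
      exact this
    have h2 : ∀ᶠ x : ℝ in Filter.atTop, ‖Real.log x ^ (2 ^ s)‖ ≤ 1 * ‖x ^ (1 : ℝ)‖ :=
      h1.bound (by norm_num)
    have h3 : ∀ᶠ Z : ℕ in Filter.atTop, ‖Real.log (Z : ℝ) ^ (2 ^ s)‖ ≤ 1 * ‖(Z : ℝ) ^ (1 : ℝ)‖ :=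
      tendsto_natCast_atTop_atTop.eventually h2
    obtain ⟨L0, hL0⟩ := Filter.eventually_atTop.mp h3
    refine ⟨1 + Real.exp (2 ^ s * (Real.log (Real.log (max L0 3 : ℕ)))), by positivity, ?_⟩
    intro L hL
    have hL1 : (1 : ℝ) < L := by exact_mod_cast hL
    have hlogL : 0 < Real.log L := Real.log_pos hL1
    by_cases h : L0 ≤ L
    · have h4 := hL0 L h
      rw [Real.norm_of_nonneg (by positivity), Real.rpow_one, one_mul,
        Real.norm_of_nonneg (by positivity)] at h4
      have h5 : Real.exp (2 ^ s * (Real.log (Real.log L))) = (Real.log L) ^ (2 ^ s) := by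
        have := Real.exp_nat_mul (Real.log (Real.log L)) (2 ^ s)
        push_cast at this
        rw [this, Real.exp_log hlogL]
      rw [h5]
      have h6 := Real.exp_pos (2 ^ s * (Real.log (Real.log (max L0 3 : ℕ))))
      nlinarith
    · have h4 : Real.exp (2 ^ s * (Real.log (Real.log L))) ≤
          Real.exp (2 ^ s * (Real.log (Real.log (max L0 3 : ℕ)))) := by
        apply Real.exp_le_exp.mpr
        apply mul_le_mul_of_nonneg_left _ (by positivity)
        apply Real.log_le_log hlogL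
        apply Real.log_le_log (by linarith)
        have : L ≤ max L0 3 := (by omega : L ≤ L0).trans (le_max_left _ _)
        exact_mod_cast this
      have h6 := Real.exp_pos (2 ^ s * (Real.log (Real.log (max L0 3 : ℕ))))
      nlinarith
  obtain ⟨C3, hC3, hlog⟩ := hlog
  refine ⟨Real.exp (2 * s) * (Real.exp (2 ^ s * C2) + Real.exp (2 ^ s * C1) * C3 + 1) , by positivity, ?_⟩
  intro L hL α hα
  have hL0 : (0 : ℝ) < L := by exact_mod_cast hL
  have hprime : ∀ q ∈ primesUpTo (L : ℝ), q.Prime := fun q hq => ((mem_primesUpTo hL0.le).mp hq).1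
  have hc0 : (0 : ℝ) ≤ 2 ^ s := by positivity
  have h1 : ∑ i ∈ range L, Psi s (α + i) ≤ Real.exp (2 * s) *
      ∑ i ∈ range L, ∏ q ∈ primesUpTo L, (1 + (if (q : ℤ) ∣ α + i then (2 : ℝ) ^ s / q else 0)) := by
    rw [Finset.mul_sum]
    apply Finset.sum_le_sum
    intro i hi
    exact Psi_le_small s L hL _ (hα i (Finset.mem_range.mp hi))
  have h2 : ∑ i ∈ range L, ∏ q ∈ primesUpTo (L : ℝ),
      (1 + (if (q : ℤ) ∣ α + i then (2 : ℝ) ^ s / q else 0)) ≤
      L * ∏ q ∈ primesUpTo (L : ℝ), (1 + (2 : ℝ) ^ s / q * (1 / q)) +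
        ∏ q ∈ primesUpTo (L : ℝ), (1 + (2 : ℝ) ^ s / q) := by
    calc ∑ i ∈ range L, ∏ q ∈ primesUpTo (L : ℝ),
      (1 + (if (q : ℤ) ∣ α + i then (2 : ℝ) ^ s / q else 0))
        = ∑ i ∈ range L, ∑ J ∈ (primesUpTo (L : ℝ)).powerset,
          (∏ q ∈ J, ((2 : ℝ) ^ s / (q : ℝ))) *
            (if ((∏ q ∈ J, q : ℕ) : ℤ) ∣ α + i then 1 else 0) :=
          Finset.sum_congr rfl fun i _ => prod_one_add_ind _ hprime _ _
      _ = ∑ J ∈ (primesUpTo (L : ℝ)).powerset, (∏ q ∈ J, ((2 : ℝ) ^ s / (q : ℝ))) *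
            (((range L).filter (fun i : ℕ => ((∏ q ∈ J, q : ℕ) : ℤ) ∣ α + i)).card : ℝ) := by
          rw [Finset.sum_comm]
          apply Finset.sum_congr rfl
          intro J _
          rw [← Finset.mul_sum, Finset.sum_boole]
      _ ≤ ∑ J ∈ (primesUpTo (L : ℝ)).powerset, (∏ q ∈ J, ((2 : ℝ) ^ s / (q : ℝ))) *
            ((L : ℝ) / (∏ q ∈ J, q : ℕ) + 1) := by
          apply Finset.sum_le_sum
          intro J hJ
          rw [Finset.mem_powerset] at hJ
          apply mul_le_mul_of_nonneg_left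
          · exact card_dvd_le α (Finset.prod_pos fun q hq => (hprime q (hJ hq)).pos) L
          · apply Finset.prod_nonneg
            intro q _; positivity
      _ = _ := by
          rw [Finset.prod_one_add, Finset.prod_one_add, Finset.mul_sum, ← Finset.sum_add_distrib]
          apply Finset.sum_congr rfl
          intro J _
          rw [Finset.prod_mul_distrib]
          push_cast
          rw [Finset.prod_div_distrib (f := fun _ => (1 : ℝ)), Finset.prod_const_one]
          ring
  have h3 : ∏ q ∈ primesUpTo (L : ℝ), (1 + (2 : ℝ) ^ s / q * (1 / q)) ≤ Real.exp (2 ^ s * C2) := by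
    calc ∏ q ∈ primesUpTo (L : ℝ), (1 + (2 : ℝ) ^ s / q * (1 / q))
        ≤ ∏ q ∈ primesUpTo (L : ℝ), Real.exp (2 ^ s * (1 / (q : ℝ)) ^ 2) := by
          apply Finset.prod_le_prod
          · intro q _; positivity
          · intro q _
            have := Real.add_one_le_exp (2 ^ s * (1 / (q : ℝ)) ^ 2)
            calc 1 + (2 : ℝ) ^ s / q * (1 / q) = 2 ^ s * (1 / (q : ℝ)) ^ 2 + 1 := by ring
              _ ≤ _ := this
      _ = Real.exp (2 ^ s * ∑ q ∈ primesUpTo (L : ℝ), (1 / (q : ℝ)) ^ 2) := by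
          rw [← Real.exp_sum, Finset.mul_sum]
      _ ≤ _ := by
          apply Real.exp_le_exp.mpr
          exact mul_le_mul_of_nonneg_left (hS _) hc0
  have h4 : ∏ q ∈ primesUpTo (L : ℝ), (1 + (2 : ℝ) ^ s / q) ≤ (Real.exp (2 ^ s * C1) * C3 + 1) * L := by
    by_cases hL2 : 2 ≤ L
    · have hL2' : (2 : ℝ) ≤ L := by exact_mod_cast hL2
      calc ∏ q ∈ primesUpTo (L : ℝ), (1 + (2 : ℝ) ^ s / q)
          ≤ ∏ q ∈ primesUpTo (L : ℝ), Real.exp (2 ^ s * (1 / (q : ℝ))) := by
            apply Finset.prod_le_prod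
            · intro q _; positivity
            · intro q _
              have := Real.add_one_le_exp (2 ^ s * (1 / (q : ℝ)))
              calc 1 + (2 : ℝ) ^ s / q = 2 ^ s * (1 / (q : ℝ)) + 1 := by ring
                _ ≤ _ := this
        _ = Real.exp (2 ^ s * ∑ q ∈ primesUpTo (L : ℝ), (1 : ℝ) / q) := by
            rw [← Real.exp_sum, Finset.mul_sum]
        _ ≤ Real.exp (2 ^ s * (Real.log (Real.log L) + C1)) := by
            apply Real.exp_le_exp.mpr
            apply mul_le_mul_of_nonneg_left _ hc0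
            have := (abs_le.mp (hM L hL2')).2
            linarith
        _ = Real.exp (2 ^ s * C1) * Real.exp (2 ^ s * (Real.log (Real.log L))) := by
            rw [← Real.exp_add]; congr 1; ring
        _ ≤ Real.exp (2 ^ s * C1) * (C3 * L) :=
            mul_le_mul_of_nonneg_left (hlog L hL2) (Real.exp_pos _).le
        _ ≤ _ := by nlinarith [Real.exp_pos (2 ^ s * C1)]
    · have hL1 : L = 1 := by omega
      subst hL1
      have h5 : primesUpTo ((1 : ℕ) : ℝ) = ∅ := by
        rw [Finset.eq_empty_iff_forall_notMem]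
        intro q hq
        rw [mem_primesUpTo (by norm_num)] at hq
        have := hq.1.one_lt
        have h6 : q ≤ 1 := by exact_mod_cast hq.2
        omega
      rw [h5, Finset.prod_empty]
      have : 0 < Real.exp (2 ^ s * C1) * C3 := by positivity
      push_cast
      linarith
  calc ∑ i ∈ range L, Psi s (α + i) ≤ _ := h1
    _ ≤ Real.exp (2 * s) * (L * Real.exp (2 ^ s * C2) + (Real.exp (2 ^ s * C1) * C3 + 1) * L) := by
        apply mul_le_mul_of_nonneg_left _ (Real.exp_pos _).le
        refine h2.trans ?_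
        exact add_le_add (mul_le_mul_of_nonneg_left h3 hL0.le) h4
    _ = _ := by ring

end Pool.Agent.Helper57.FP
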