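import Pool.Agent.Helper57.FP.Pairs

/-!
# Energy pigeonholing over scales
-/

set_option autoImplicit false

open Finset Real

namespace Pool.Agent.Helper57.FP

/-- number of elements of `A` in block `j` of length `B` -/
def bc (A : Finset ℕ) (B j : ℕ) : ℕ := (A.filter (fun n => n / B = j)).card

theorem bc_mul (A : Finset ℕ) (B R V : ℕ) (hR : 0 < R) :
    bc A (B * R) V = ∑ i ∈ range R, bc A B (V * R + i) := by
  unfold bc
  rw [Finset.card_eq_sum_card_fiberwise (f := fun n => n / B - V * R) (t := range R)]
  · apply Finset.sum_congr rfl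
    intro i hi
    rw [Finset.mem_range] at hi
    congr 1
    ext n
    simp only [Finset.mem_filter]
    rw [← Nat.div_div_eq_div_mul]
    constructor
    · rintro ⟨⟨h1, h2⟩, h3⟩
      refine ⟨h1, ?_⟩
      have h4 := Nat.div_mul_le_self (n / B) R
      rw [h2] at h4
      omega
    · rintro ⟨h1, h2⟩
      refine ⟨⟨h1, ?_⟩, by omega⟩
      rw [h2, mul_comm, Nat.mul_add_div hR, Nat.div_eq_of_lt hi, add_zero]
  · intro n hn
    rw [Finset.mem_coe, Finset.mem_filter] at hn
    rw [Finset.mem_coe, Finset.mem_range]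
    show n / B - V * R < R
    have h1 : n / (B * R) = V := hn.2
    rw [← Nat.div_div_eq_div_mul] at h1
    have h2 : n / B < V * R + R := by
      have := Nat.lt_mul_div_succ (n / B) hR
      rw [h1] at this
      calc n / B < R * (V + 1) := this
        _ = V * R + R := by ring
    omega

theorem energy_identity (a : ℕ → ℝ) (N R : ℕ) (hR : 0 < R) :
    ∑ j ∈ range (N * R), (a j - (∑ i ∈ range R, a (j / R * R + i)) / R) ^ 2 =
      ∑ j ∈ range (N * R), a j ^ 2 - (∑ V ∈ range N, (∑ i ∈ range R, a (V * R + i)) ^ 2) / R := by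
  have hR0 : (R : ℝ) ≠ 0 := by exact_mod_cast hR.ne'
  induction N with
  | zero => simp
  | succ N ih =>
    rw [Nat.succ_mul, Finset.sum_range_add, Finset.sum_range_add, ih, Finset.sum_range_succ]
    have h1 : ∀ i ∈ range R, (a (N * R + i) -
        (∑ i' ∈ range R, a ((N * R + i) / R * R + i')) / R) ^ 2 =
        (a (N * R + i) - (∑ i' ∈ range R, a (N * R + i')) / R) ^ 2 := by
      intro i hi
      rw [Finset.mem_range] at hi
      have : (N * R + i) / R = N := by
        rw [mul_comm, Nat.mul_add_div hR, Nat.div_eq_of_lt hi, add_zero]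
      rw [this]
    rw [Finset.sum_congr rfl h1]
    set S := ∑ i' ∈ range R, a (N * R + i') with hS
    have h2 : ∑ i ∈ range R, (a (N * R + i) - S / R) ^ 2 =
        ∑ i ∈ range R, a (N * R + i) ^ 2 - S ^ 2 / R := by
      have h3 : ∀ i ∈ range R, (a (N * R + i) - S / R) ^ 2 =
          a (N * R + i) ^ 2 - 2 * (S / R) * a (N * R + i) + (S / R) ^ 2 := by
        intro i _; ring
      rw [Finset.sum_congr rfl h3, Finset.sum_add_distrib, Finset.sum_sub_distrib,
        ← Finset.mul_sum, ← hS, Finset.sum_const, Finset.card_range, nsmul_eq_mul]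
      field_simp
      ring
    rw [h2]
    ring

theorem pigeon (E : ℕ → ℝ) (K : ℕ) (hK : 0 < K) (M : ℝ) (h0 : E 0 ≤ M) (hK0 : 0 ≤ E K) :
    ∃ i < K, E i - E (i + 1) ≤ M / K := by
  by_contra hne
  push Not at hne
  have h1 : ∑ i ∈ range K, (E i - E (i + 1)) = E 0 - E K := Finset.sum_range_sub' E K
  have hK' : (0 : ℝ) < K := by exact_mod_cast hK
  have h2 : ∑ _i ∈ range K, M / K < ∑ i ∈ range K, (E i - E (i + 1)) := by
    apply Finset.sum_lt_sum_of_nonempty
    · exact ⟨0, Finset.mem_range.mpr hK⟩
    · intro i hi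
      exact hne i (Finset.mem_range.mp hi)
  rw [h1, Finset.sum_const, Finset.card_range, nsmul_eq_mul] at h2
  have : (K : ℝ) * (M / K) = M := by field_simp
  linarith

/-- second moment over blocks -/
theorem energy_le : ∃ C : ℝ, 0 < C ∧ ∃ Z0 : ℕ, ∀ Z : ℕ, Z0 ≤ Z → ∀ B : ℕ, 0 < B →
    (Real.log Z) ^ 2 ≤ B → ∀ A : Finset ℕ, (∀ p ∈ A, p.Prime ∧ p < Z) → ∀ N : ℕ,
    ∑ j ∈ range N, (bc A B j : ℝ) ^ 2 ≤ C * (Z / (Real.log Z) ^ 2) * B := by
  classical
  obtain ⟨C, hC, Z0, hP⟩ := pair_bound 0
  refine ⟨C, hC, Z0, ?_⟩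
  intro Z hZ B hB0 hB A hA N
  have h1 := hP Z hZ 0 B (fun _ x => x + 1) le_rfl (by simpa using hB) (fun _ x => Nat.lt_succ_self x)
    (by
      intro u i hi
      have : i = 0 := by omega
      subst this
      rw [X_zero]
      positivity)
    (by
      intro u
      rw [X_zero]
      exact Nat.one_le_two_pow)
  simp only [mul_zero, zero_add, pow_one] at h1
  refine le_trans ?_ h1
  have h2 : ∑ j ∈ range N, (bc A B j) ^ 2 ≤ (PR 0 B 0 Z (fun _ x => x + 1)).card := by
    have h3 : ∑ j ∈ range N, (bc A B j) ^ 2 = (((range N).sigma (fun j =>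
        (A.filter (fun n => n / B = j)) ×ˢ (A.filter (fun n => n / B = j)))).card) := by
      rw [Finset.card_sigma]
      apply Finset.sum_congr rfl
      intro j _
      rw [Finset.card_product, bc, sq]
    rw [h3]
    apply Finset.card_le_card_of_injOn (fun e => ((e.2.1, Fin.elim0), (e.2.2, Fin.elim0)))
    · rintro ⟨j, p, q⟩ he
      simp only [Finset.mem_coe, Finset.mem_sigma, Finset.mem_product, Finset.mem_filter] at he
      obtain ⟨_, ⟨hp, hpj⟩, ⟨hq, hqj⟩⟩ := he
      simp only [PR, Finset.mem_coe, Finset.mem_filter, Finset.mem_product, mem_TP]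
      refine ⟨⟨⟨(hA p hp).2, ?_⟩, ⟨(hA q hq).2, ?_⟩⟩, ?_⟩
      · intro i hi
        have : i = 0 := by omega
        subst this
        exact (hA p hp).1
      · intro i hi
        have : i = 0 := by omega
        subst this
        exact (hA q hq).1
      · unfold yy
        simp only [X_zero]
        rw [abs_lt]
        have a1 := Nat.div_mul_le_self p B
        have a2 := Nat.div_mul_le_self q B
        have a3 := Nat.lt_mul_div_succ p hB0
        have a4 := Nat.lt_mul_div_succ q hB0
        rw [hpj] at a1 a3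
        rw [hqj] at a2 a4
        have a5 : B * (j + 1) = j * B + B := by ring
        push_cast
        omega
    · rintro ⟨j, p, q⟩ he ⟨j', p', q'⟩ he' h
      simp only [Finset.mem_coe, Finset.mem_sigma, Finset.mem_product, Finset.mem_filter] at he he'
      simp only [Prod.mk.injEq, and_true] at h
      obtain ⟨h1, h2⟩ := h
      subst h1
      subst h2
      have : j = j' := by rw [← he.2.1.2, ← he'.2.1.2]
      subst this
      rfl
  calc ∑ j ∈ range N, (bc A B j : ℝ) ^ 2 = ((∑ j ∈ range N, (bc A B j) ^ 2 : ℕ) : ℝ) := by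
        push_cast; rfl
    _ ≤ _ := by exact_mod_cast h2

theorem card_bdry_le (N R T : ℕ) (hR : 0 < R) (hT : T ≤ R) :
    ((range (N * R)).filter (fun j => R - T ≤ j % R)).card ≤ N * T := by
  calc ((range (N * R)).filter (fun j => R - T ≤ j % R)).card ≤ (range N ×ˢ range T).card := by
        apply Finset.card_le_card_of_injOn (fun j => (j / R, j % R - (R - T)))
        · intro j hj
          simp only [Finset.mem_coe, Finset.mem_filter, Finset.mem_range] at hj
          simp only [Finset.mem_coe, Finset.mem_product, Finset.mem_range]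
          have h1 := Nat.mod_lt j hR
          refine ⟨?_, by omega⟩
          rw [Nat.div_lt_iff_lt_mul hR]
          exact hj.1
        · intro j hj j' hj' h
          simp only [Finset.mem_coe, Finset.mem_filter, Finset.mem_range] at hj hj'
          simp only [Prod.mk.injEq] at h
          have h1 : j % R = j' % R := by omega
          rw [← Nat.div_add_mod j R, ← Nat.div_add_mod j' R, h.1, h1]
    _ = N * T := by rw [Finset.card_product, Finset.card_range, Finset.card_range]

end Pool.Agent.Helper57.FP
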