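import Pool.Agent.Helper57.FP.Energy

/-!
# Regularity: at a suitable scale almost all blocks of rich windows are rich
-/

set_option autoImplicit false

open Finset Real

namespace Pool.Agent.Helper57.FP

theorem pow_le_two_pow (D m : ℕ) (hD : 0 < D) : ∃ z0 : ℕ, ∀ z : ℕ, z0 ≤ z → z ^ m ≤ 2 ^ (z / D) := by
  have h1 := tendsto_pow_const_div_const_pow_of_one_lt m (r := (2 : ℝ)) (by norm_num)
  have h2 : ∀ᶠ n : ℕ in Filter.atTop, (n : ℝ) ^ m / 2 ^ n < 1 / (2 * (D : ℝ) ^ m) :=
    h1.eventually_lt_const (by positivity)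
  obtain ⟨n0, hn0⟩ := Filter.eventually_atTop.mp h2
  refine ⟨D * n0, ?_⟩
  intro z hz
  set e := z / D with he
  have he0 : n0 ≤ e := by
    rw [he, Nat.le_div_iff_mul_le hD]
    linarith [mul_comm D n0]
  have h3 := hn0 (e + 1) (by omega)
  have hD0 : (0 : ℝ) < (D : ℝ) ^ m := by positivity
  rw [div_lt_div_iff₀ (by positivity) (by positivity), one_mul] at h3
  have h4 : z ≤ D * (e + 1) := by
    have := Nat.lt_mul_div_succ z hD
    exact this.le
  have h5 : z ^ m ≤ (D * (e + 1)) ^ m := Nat.pow_le_pow_left h4 m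
  have h6 : (((D * (e + 1)) ^ m : ℕ) : ℝ) ≤ 2 ^ e := by
    rw [pow_succ] at h3
    push_cast
    push_cast at h3
    rw [mul_pow]
    nlinarith
  have h7 : (D * (e + 1)) ^ m ≤ 2 ^ e := by exact_mod_cast h6
  exact h5.trans h7

theorem energy_main (δ ε : ℝ) (hδ : 0 < δ) (hε : 0 < ε) (c M : ℕ) (hc : 1 ≤ c) :
    ∃ z0 : ℕ, ∀ z : ℕ, z0 ≤ z → ∀ A : Finset ℕ, (∀ p ∈ A, p.Prime ∧ p < 2 ^ z) →
    δ * ((2 : ℝ) ^ z / Real.log ((2 : ℝ) ^ z)) ≤ A.card →
    ∃ β : ℕ, z ^ M ≤ 2 ^ β ∧ (c + 1) * β ≤ z ∧ ∃ J : Finset ℕ,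
      (J.card : ℝ) ≤ ε * ((2 : ℝ) ^ z / 2 ^ β) ∧ ∃ G : Finset ℕ, G ⊆ A ∧
      δ / 4 * ((2 : ℝ) ^ z / Real.log ((2 : ℝ) ^ z)) ≤ G.card ∧
      ∀ p ∈ G, ∀ j : ℕ, p ≤ j * 2 ^ β → (j + 1) * 2 ^ β ≤ p + 2 ^ (c * β) → j ∉ J →
        δ / 4 * ((2 : ℝ) ^ β / Real.log ((2 : ℝ) ^ z)) ≤ bc A (2 ^ β) j := by
  classical
  obtain ⟨C, hC, Z0, hE⟩ := energy_le
  set K : ℕ := ⌈16 * C / (δ ^ 2 * ε)⌉₊ + 1 with hK
  have hK0 : 0 < K := Nat.succ_pos _
  have hKr : (0 : ℝ) < K := by exact_mod_cast hK0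
  have hKC : 16 * C / (δ ^ 2 * ε) ≤ K := by
    rw [hK]; push_cast
    linarith [Nat.le_ceil (16 * C / (δ ^ 2 * ε))]
  set D : ℕ := (c + 1) ^ K with hD
  have hD0 : 0 < D := by positivity
  obtain ⟨z1, hz1⟩ := pow_le_two_pow D (max M 2) hD0
  refine ⟨max (max z1 Z0) (max 2 ⌈16 * C / δ ^ 2⌉₊), ?_⟩
  intro z hz A hA hcard
  have hzz1 : z1 ≤ z := (le_max_left _ _).trans ((le_max_left _ _).trans hz)
  have hzZ0 : Z0 ≤ z := (le_max_right _ _).trans ((le_max_left _ _).trans hz)
  have hz2 : 2 ≤ z := (le_max_left _ _).trans ((le_max_right _ _).trans hz)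
  have hzC : ⌈16 * C / δ ^ 2⌉₊ ≤ z := (le_max_right _ _).trans ((le_max_right _ _).trans hz)
  have hzC' : 16 * C / δ ^ 2 ≤ z := (Nat.le_ceil _).trans (by exact_mod_cast hzC)
  have hz0' : (0 : ℝ) < z := by exact_mod_cast (by omega : 0 < z)
  set lz : ℝ := Real.log ((2 : ℝ) ^ z) with hlz
  have hlzeq : lz = z * Real.log 2 := by rw [hlz, Real.log_pow]
  have hlog2 : 0 < Real.log 2 := Real.log_pos (by norm_num)
  have hlog2' : Real.log 2 ≤ 1 := by
    have := Real.log_two_lt_d9; linarith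
  have hlz0 : 0 < lz := by rw [hlzeq]; positivity
  have hlzz : lz ≤ z := by rw [hlzeq]; nlinarith
  set e : ℕ := z / D with he
  have hpow : z ^ (max M 2) ≤ 2 ^ e := hz1 z hzz1
  have hpow2 : z ^ 2 ≤ 2 ^ e := (Nat.pow_le_pow_right (by omega) (le_max_right _ _)).trans hpow
  have hpowM : z ^ M ≤ 2 ^ e := (Nat.pow_le_pow_right (by omega) (le_max_left _ _)).trans hpow
  have hpow1 : z ≤ 2 ^ e := by
    refine le_trans ?_ hpow2
    nlinarith
  set Z : ℕ := 2 ^ z with hZ
  have hZr : (Z : ℝ) = (2 : ℝ) ^ z := by rw [hZ]; push_cast; rfl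
  have hZ0 : Z0 ≤ Z := hzZ0.trans Nat.lt_two_pow_self.le
  -- scales
  set bt : ℕ → ℕ := fun i => e * (c + 1) ^ i with hbt
  have hbtS : ∀ i, bt (i + 1) = (c + 1) * bt i := by
    intro i; simp only [hbt]; ring
  have hbtK : ∀ i, i ≤ K → bt i ≤ z := by
    intro i hi
    calc e * (c + 1) ^ i ≤ e * (c + 1) ^ K :=
          Nat.mul_le_mul_left _ (Nat.pow_le_pow_right (by omega) hi)
      _ ≤ z := Nat.div_mul_le_self z D
  have hbt0 : ∀ i, e ≤ bt i := fun i => Nat.le_mul_of_pos_right _ (by positivity)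
  have hlogB : ∀ i, lz ^ 2 ≤ ((2 ^ bt i : ℕ) : ℝ) := by
    intro i
    calc lz ^ 2 ≤ (z : ℝ) ^ 2 := by gcongr
      _ = ((z ^ 2 : ℕ) : ℝ) := by push_cast; rfl
      _ ≤ ((2 ^ e : ℕ) : ℝ) := by exact_mod_cast hpow2
      _ ≤ _ := by exact_mod_cast Nat.pow_le_pow_right (by norm_num) (hbt0 i)
  have hEi : ∀ i N : ℕ, ∑ j ∈ range N, (bc A (2 ^ bt i) j : ℝ) ^ 2 ≤
      C * (2 ^ z / lz ^ 2) * ((2 ^ bt i : ℕ) : ℝ) := by
    intro i N
    have := hE Z hZ0 (2 ^ bt i) (by positivity) (by rw [hZr]; exact hlogB i) A hA N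
    rwa [hZr] at this
  set En : ℕ → ℝ := fun i => (∑ j ∈ range (2 ^ (z - bt i)), (bc A (2 ^ bt i) j : ℝ) ^ 2) /
    2 ^ bt i with hEn
  obtain ⟨i, hiK, hpig⟩ := pigeon En K hK0 (C * (2 ^ z / lz ^ 2))
    (by
      simp only [hEn]
      rw [div_le_iff₀ (by positivity)]
      have := hEi 0 (2 ^ (z - bt 0))
      push_cast at this
      exact this)
    (by simp only [hEn]; positivity)
  set β : ℕ := bt i with hβ
  have hβz : (c + 1) * β ≤ z := by rw [hβ, ← hbtS]; exact hbtK (i + 1) (by omega)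
  have hβ1 : c * β + β ≤ z := by rw [← Nat.succ_mul]; exact hβz
  set B : ℕ := 2 ^ β with hB
  set R : ℕ := 2 ^ (c * β) with hR
  set N : ℕ := 2 ^ (z - (c + 1) * β) with hN
  have hBr : (B : ℝ) = (2 : ℝ) ^ β := by rw [hB]; push_cast; rfl
  have hBpos : 0 < B := by positivity
  have hB0 : (0 : ℝ) < B := by exact_mod_cast hBpos
  have hRpos : 0 < R := by positivity
  have hR0 : (0 : ℝ) < R := by exact_mod_cast hRpos
  have hW : B * R = 2 ^ bt (i + 1) := by
    rw [hB, hR, ← pow_add, hbtS]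
    congr 1; ring
  have hNR : N * R = 2 ^ (z - β) := by
    rw [hN, hR, ← pow_add]
    congr 1
    rw [Nat.succ_mul]; omega
  have hNRB : N * R * B = Z := by
    rw [hNR, hB, ← pow_add, hZ]
    congr 1; omega
  have hNRBr : (N : ℝ) * R * B = 2 ^ z := by rw [← hZr, ← hNRB]; push_cast; ring
  have hNW : N = 2 ^ (z - bt (i + 1)) := by rw [hN, hbtS]
  have hbcW : ∀ V, ∑ i ∈ range R, (bc A B (V * R + i) : ℝ) = bc A (B * R) V := by
    intro V
    rw [bc_mul A B R V hRpos]; push_cast; rfl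
  -- the key variance bound
  have hvar : ∑ j ∈ range (N * R), ((bc A B j : ℝ) - (bc A (B * R) (j / R) : ℝ) / R) ^ 2 ≤
      B * (C * (2 ^ z / lz ^ 2) / K) := by
    have h1 := energy_identity (fun j => (bc A B j : ℝ)) N R hRpos
    simp only [hbcW] at h1
    rw [h1]
    have h2 : En i = (∑ j ∈ range (N * R), (bc A B j : ℝ) ^ 2) / B := by
      simp only [hEn]
      rw [hNR, ← hβ, ← hBr]
    have h3 : En (i + 1) = (∑ V ∈ range N, (bc A (B * R) V : ℝ) ^ 2) / (B * R) := by
      simp only [hEn]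
      rw [← hNW, ← hW]
      congr 1
      have : ((B * R : ℕ) : ℝ) = (2 : ℝ) ^ bt (i + 1) := by rw [hW]; push_cast; rfl
      rw [← this]; push_cast; rfl
    rw [h2, h3] at hpig
    have h4 : (∑ j ∈ range (N * R), (bc A B j : ℝ) ^ 2) - (∑ V ∈ range N, (bc A (B * R) V : ℝ) ^ 2) / R
        = B * ((∑ j ∈ range (N * R), (bc A B j : ℝ) ^ 2) / B -
          (∑ V ∈ range N, (bc A (B * R) V : ℝ) ^ 2) / (B * R)) := by
      field_simp
    rw [h4]
    exact mul_le_mul_of_nonneg_left hpig hB0.le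
  -- bad blocks
  set J : Finset ℕ := (range (N * R)).filter (fun j =>
    δ / 2 * ((B * R : ℝ) / lz) ≤ bc A (B * R) (j / R) ∧ (bc A B j : ℝ) < δ / 4 * (B / lz)) with hJ
  have hJcard : (J.card : ℝ) ≤ ε * (2 ^ z / B) := by
    have h1 : (J.card : ℝ) * (δ / 4 * (B / lz)) ^ 2 ≤ B * (C * (2 ^ z / lz ^ 2) / K) := by
      calc (J.card : ℝ) * (δ / 4 * (B / lz)) ^ 2 = ∑ _j ∈ J, (δ / 4 * (B / lz)) ^ 2 := by
            rw [Finset.sum_const, nsmul_eq_mul]
        _ ≤ ∑ j ∈ J, ((bc A B j : ℝ) - (bc A (B * R) (j / R) : ℝ) / R) ^ 2 := by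
            apply Finset.sum_le_sum
            intro j hj
            rw [hJ, Finset.mem_filter] at hj
            obtain ⟨_, hj1, hj2⟩ := hj
            have h2 : δ / 2 * (B / lz) ≤ (bc A (B * R) (j / R) : ℝ) / R := by
              rw [le_div_iff₀ hR0]
              calc δ / 2 * (B / lz) * R = δ / 2 * ((B * R : ℝ) / lz) := by ring
                _ ≤ _ := hj1
            have h3 : 0 < δ / 4 * (B / lz) := by positivity
            have h4 : δ / 2 * (B / lz) = 2 * (δ / 4 * (B / lz)) := by ring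
            have h5 : δ / 4 * (B / lz) ≤ (bc A (B * R) (j / R) : ℝ) / R - bc A B j := by linarith
            have h6 := pow_le_pow_left₀ h3.le h5 2
            calc (δ / 4 * (B / lz)) ^ 2 ≤ ((bc A (B * R) (j / R) : ℝ) / R - bc A B j) ^ 2 := h6
              _ = _ := by ring
        _ ≤ ∑ j ∈ range (N * R), ((bc A B j : ℝ) - (bc A (B * R) (j / R) : ℝ) / R) ^ 2 := by
            apply Finset.sum_le_sum_of_subset_of_nonneg (Finset.filter_subset _ _)
            intro j _ _; positivity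
        _ ≤ _ := hvar
    have h2 : (J.card : ℝ) * (δ / 4 * (B / lz)) ^ 2 = (J.card : ℝ) * B * (δ ^ 2 * B / (16 * lz ^ 2)) := by
      field_simp; ring
    have h3 : B * (C * (2 ^ z / lz ^ 2) / K) = (16 * C / (δ ^ 2 * K)) * 2 ^ z * (δ ^ 2 * B / (16 * lz ^ 2)) := by
      field_simp
    rw [h2, h3] at h1
    have h4 : (J.card : ℝ) * B ≤ (16 * C / (δ ^ 2 * K)) * 2 ^ z :=
      le_of_mul_le_mul_right h1 (by positivity)
    have h5 : 16 * C / (δ ^ 2 * K) ≤ ε := by
      rw [div_le_iff₀ (by positivity)]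
      rw [div_le_iff₀ (by positivity)] at hKC
      linarith
    have h6 : (J.card : ℝ) * B ≤ ε * 2 ^ z := by
      refine h4.trans ?_
      exact mul_le_mul_of_nonneg_right h5 (by positivity)
    rw [← mul_div_assoc, le_div_iff₀ hB0]
    exact h6
  -- the good set
  set G : Finset ℕ := A.filter (fun p => δ / 2 * ((B * R : ℝ) / lz) ≤ bc A (B * R) (p / (B * R)) ∧
    p % (B * R) + R ≤ B * R) with hG
  set A1 : Finset ℕ := A.filter (fun p => (bc A (B * R) (p / (B * R)) : ℝ) <
    δ / 2 * ((B * R : ℝ) / lz)) with hA1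
  set A2 : Finset ℕ := A.filter (fun p => B * R < p % (B * R) + R) with hA2
  have hBRpos : 0 < B * R := Nat.mul_pos hBpos hRpos
  have hZNBR : Z = N * (B * R) := by rw [← hNRB]; ring
  have hcover : A ⊆ (G ∪ A1) ∪ A2 := by
    intro p hp
    rw [Finset.mem_union, Finset.mem_union, hG, hA1, hA2, Finset.mem_filter, Finset.mem_filter,
      Finset.mem_filter]
    by_cases h1 : δ / 2 * ((B * R : ℝ) / lz) ≤ bc A (B * R) (p / (B * R))
    · by_cases h2 : p % (B * R) + R ≤ B * R
      · left; left; exact ⟨hp, h1, h2⟩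
      · right; exact ⟨hp, by omega⟩
    · left; right; exact ⟨hp, not_le.mp h1⟩
  have hcard1 : (A1.card : ℝ) ≤ δ / 2 * (2 ^ z / lz) := by
    have h1 : A1.card = ∑ V ∈ range N, (A1.filter (fun p => p / (B * R) = V)).card := by
      apply Finset.card_eq_sum_card_fiberwise
      intro p hp
      rw [Finset.mem_coe, hA1, Finset.mem_filter] at hp
      rw [Finset.mem_coe, Finset.mem_range]
      show p / (B * R) < N
      rw [Nat.div_lt_iff_lt_mul hBRpos, ← hZNBR]
      exact (hA p hp.1).2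
    rw [h1]
    push_cast
    calc ∑ V ∈ range N, ((A1.filter (fun p => p / (B * R) = V)).card : ℝ)
        ≤ ∑ _V ∈ range N, δ / 2 * ((B * R : ℝ) / lz) := by
          apply Finset.sum_le_sum
          intro V _
          by_cases hV : (bc A (B * R) V : ℝ) < δ / 2 * ((B * R : ℝ) / lz)
          · refine le_trans ?_ hV.le
            have : (A1.filter (fun p => p / (B * R) = V)).card ≤ bc A (B * R) V := by
              unfold bc
              exact Finset.card_le_card (Finset.filter_subset_filter _ (Finset.filter_subset _ _))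
            exact_mod_cast this
          · have : A1.filter (fun p => p / (B * R) = V) = ∅ := by
              rw [Finset.eq_empty_iff_forall_notMem]
              intro p hp
              rw [Finset.mem_filter, hA1, Finset.mem_filter] at hp
              rw [hp.2] at hp
              exact hV hp.1.2
            rw [this, Finset.card_empty, Nat.cast_zero]
            positivity
      _ = δ / 2 * (2 ^ z / lz) := by
          rw [Finset.sum_const, Finset.card_range, nsmul_eq_mul, ← hNRBr]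
          ring
  set T : ℕ := 2 ^ ((c - 1) * β) with hT
  have hTB : T * B = R := by
    rw [hT, hB, hR, ← pow_add]
    congr 1
    obtain ⟨c', rfl⟩ : ∃ c', c = c' + 1 := ⟨c - 1, by omega⟩
    simp only [Nat.add_sub_cancel]
    ring
  have hTR : T ≤ R := by
    rw [← hTB]; exact Nat.le_mul_of_pos_right _ hBpos
  have hcard2 : (A2.card : ℝ) ≤ δ / 4 * (2 ^ z / lz) := by
    set bd : Finset ℕ := (range (N * R)).filter (fun j => R - T ≤ j % R) with hbd
    have h1 : A2.card ≤ ∑ j ∈ bd, bc A B j := by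
      rw [Finset.card_eq_sum_card_fiberwise (f := fun p => p / B) (t := bd)]
      · apply Finset.sum_le_sum
        intro j _
        unfold bc
        exact Finset.card_le_card (Finset.filter_subset_filter _ (Finset.filter_subset _ _))
      · intro p hp
        rw [Finset.mem_coe, hA2, Finset.mem_filter] at hp
        rw [Finset.mem_coe, hbd, Finset.mem_filter, Finset.mem_range]
        show p / B < N * R ∧ R - T ≤ p / B % R
        obtain ⟨hpA, hp2⟩ := hp
        constructor
        · rw [Nat.div_lt_iff_lt_mul hBpos, hNRB]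
          exact (hA p hpA).2
        · rw [Nat.mod_mul] at hp2
          have h3 := Nat.mod_lt p hBpos
          have h4 : B * R < B * (p / B % R + 1 + T) := by
            calc B * R < p % B + B * (p / B % R) + R := hp2
              _ < B + B * (p / B % R) + R := by omega
              _ = B + B * (p / B % R) + T * B := by rw [hTB]
              _ = B * (p / B % R + 1 + T) := by ring
          have h5 : R < p / B % R + 1 + T := lt_of_mul_lt_mul_left h4 (Nat.zero_le _)
          omega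
    have h2 : (bd.card : ℝ) ≤ N * T := by exact_mod_cast card_bdry_le N R T hRpos hTR
    have h3 : (∑ j ∈ bd, (bc A B j : ℝ)) ^ 2 ≤ bd.card * ∑ j ∈ bd, (bc A B j : ℝ) ^ 2 :=
      sq_sum_le_card_mul_sum_sq
    have h4 : ∑ j ∈ bd, (bc A B j : ℝ) ^ 2 ≤ C * (2 ^ z / lz ^ 2) * B := by
      refine le_trans ?_ (hEi i (N * R))
      apply Finset.sum_le_sum_of_subset_of_nonneg (Finset.filter_subset _ _)
      intro j _ _; positivity
    have h5 : (A2.card : ℝ) ≤ ∑ j ∈ bd, (bc A B j : ℝ) := by exact_mod_cast h1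
    have h6 : (A2.card : ℝ) ^ 2 ≤ (δ / 4 * (2 ^ z / lz)) ^ 2 := by
      calc (A2.card : ℝ) ^ 2 ≤ (∑ j ∈ bd, (bc A B j : ℝ)) ^ 2 :=
            pow_le_pow_left₀ (by positivity) h5 2
        _ ≤ bd.card * ∑ j ∈ bd, (bc A B j : ℝ) ^ 2 := h3
        _ ≤ (N * T) * (C * (2 ^ z / lz ^ 2) * B) := by
            apply mul_le_mul h2 h4 (Finset.sum_nonneg fun j _ => by positivity) (by positivity)
        _ = C * (2 ^ z / lz ^ 2) * (N * (T * B)) := by ring
        _ = C * (2 ^ z / lz ^ 2) * (N * R) := by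
            rw [← hTB]; push_cast; ring
        _ = C / B * (2 ^ z / lz) ^ 2 := by
            have : (N : ℝ) * R = 2 ^ z / B := by
              rw [eq_div_iff hB0.ne']; exact hNRBr
            rw [this]
            field_simp
        _ ≤ δ ^ 2 / 16 * (2 ^ z / lz) ^ 2 := by
            apply mul_le_mul_of_nonneg_right _ (by positivity)
            have h7 : (z : ℝ) ≤ B := by
              have : z ≤ B := hpow1.trans (Nat.pow_le_pow_right (by norm_num) (hbt0 i))
              exact_mod_cast this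
            have h8 : 16 * C / δ ^ 2 ≤ B := hzC'.trans h7
            rw [div_le_iff₀ (by positivity)] at h8
            rw [div_le_div_iff₀ hB0 (by norm_num)]
            linarith
        _ = _ := by ring
    exact (pow_le_pow_iff_left₀ (by positivity) (by positivity) two_ne_zero).mp h6
  have hGcard : δ / 4 * (2 ^ z / lz) ≤ G.card := by
    have h1 : A.card ≤ G.card + A1.card + A2.card := by
      refine (Finset.card_le_card hcover).trans ?_
      refine (Finset.card_union_le _ _).trans ?_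
      have := Finset.card_union_le G A1
      omega
    have h2 : (A.card : ℝ) ≤ G.card + A1.card + A2.card := by exact_mod_cast h1
    have h3 : δ * (2 ^ z / lz) = δ / 4 * (2 ^ z / lz) + δ / 2 * (2 ^ z / lz) + δ / 4 * (2 ^ z / lz) := by
      ring
    linarith
  refine ⟨β, hpowM.trans (Nat.pow_le_pow_right (by norm_num) (hbt0 i)), hβz, J, ?_, G,
    Finset.filter_subset _ _, hGcard, ?_⟩
  · rw [← hBr]; exact hJcard
  · intro p hp j hpj hjp hjJ
    rw [hG, Finset.mem_filter] at hp
    obtain ⟨hpA, hp1, hp2⟩ := hp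
    have hpj' : p ≤ j * B := hpj
    have hjp' : (j + 1) * B ≤ p + R := hjp
    rw [← hBr]
    set V := p / (B * R) with hV
    have h1 : B * R * V + p % (B * R) = p := Nat.div_add_mod p (B * R)
    have h2 : V * R ≤ j := by
      have : V * R * B ≤ j * B := by
        calc V * R * B = B * R * V := by ring
          _ ≤ p := by omega
          _ ≤ j * B := hpj'
      exact le_of_mul_le_mul_right this hBpos
    have h3 : j + 1 ≤ (V + 1) * R := by
      have : (j + 1) * B ≤ (V + 1) * R * B := by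
        calc (j + 1) * B ≤ p + R := hjp'
          _ = B * R * V + (p % (B * R) + R) := by omega
          _ ≤ B * R * V + B * R := by omega
          _ = (V + 1) * R * B := by ring
      exact le_of_mul_le_mul_right this hBpos
    have h4 : j / R = V := by
      apply Nat.div_eq_of_lt_le
      · exact h2
      · omega
    have h5 : V < N := by
      rw [hV, Nat.div_lt_iff_lt_mul hBRpos, ← hZNBR]
      exact (hA p hpA).2
    have h6 : j < N * R := by
      calc j < (V + 1) * R := by omega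
        _ ≤ N * R := Nat.mul_le_mul_right _ h5
    by_contra hne
    apply hjJ
    rw [hJ, Finset.mem_filter, Finset.mem_range]
    refine ⟨h6, ?_, not_le.mp hne⟩
    rw [h4]
    exact hp1

end Pool.Agent.Helper57.FP
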