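import Pool.Agent.Helper57.FP.EnergyMain

/-!
# The induction over the coordinates
-/

set_option autoImplicit false

open Finset Real

namespace Pool.Agent.Helper57.FP

/-- blocks of length `B` inside `[y, y + B^2)` -/
def II (B y : ℕ) : Finset ℕ := Finset.Ico ((y + B - 1) / B) ((y + B ^ 2) / B)

theorem mem_II {B y j : ℕ} (hB : 0 < B) : j ∈ II B y ↔ y ≤ j * B ∧ (j + 1) * B ≤ y + B ^ 2 := by
  unfold II
  rw [Finset.mem_Ico, ← Nat.succ_le_iff (n := (y + B ^ 2) / B), Nat.le_div_iff_mul_le hB,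
    ← Nat.lt_succ_iff, Nat.div_lt_iff_lt_mul hB]
  have h1 : j.succ * B = j * B + B := Nat.succ_mul j B
  rw [h1]
  constructor
  · rintro ⟨h, h'⟩; exact ⟨by omega, h'⟩
  · rintro ⟨h, h'⟩; exact ⟨by omega, h'⟩

theorem card_II_ge {B : ℕ} (hB : 0 < B) (y : ℕ) : B ≤ (II B y).card + 1 := by
  unfold II
  rw [Nat.card_Ico]
  have h1 : (y + B ^ 2) / B = y / B + B := by
    rw [sq, Nat.add_mul_div_right _ _ hB]
  have h2 : (y + B - 1) / B ≤ y / B + 1 := by
    have : (y + B - 1) / B ≤ (y + B) / B := Nat.div_le_div_right (by omega)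
    rwa [Nat.add_div_right _ hB] at this
  omega

theorem card_II_le {B : ℕ} (hB : 0 < B) (y : ℕ) : (II B y).card ≤ B := by
  unfold II
  rw [Nat.card_Ico]
  have h1 : (y + B ^ 2) / B = y / B + B := by
    rw [sq, Nat.add_mul_div_right _ _ hB]
  have h2 : y / B ≤ (y + B - 1) / B := Nat.div_le_div_right (by omega)
  omega

/-- the tuples in `A` with base point in `G` -/
def TG (G A : Finset ℕ) (l L k : ℕ) (s : ℕ → ℕ → ℕ) : Finset (ℕ × (Fin l → Fin L)) :=
  (G ×ˢ univ).filter (fun c => ∀ i ≤ k, c.1 + X s c.2 i ∈ A)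

theorem mem_TG {G A : Finset ℕ} {l L k : ℕ} {s : ℕ → ℕ → ℕ} {c : ℕ × (Fin l → Fin L)} :
    c ∈ TG G A l L k s ↔ c.1 ∈ G ∧ ∀ i ≤ k, c.1 + X s c.2 i ∈ A := by
  unfold TG
  rw [Finset.mem_filter, Finset.mem_product]
  simp

theorem card_TG_succ {G A : Finset ℕ} {l L k : ℕ} {s : ℕ → ℕ → ℕ} (hk : k < l) :
    (L : ℝ) * (TG G A l L (k + 1) s).card =
      ∑ c ∈ TG G A l L k s, (((range L).filter (fun v => yy k s c + v ∈ A)).card : ℝ) := by
  classical
  have h1 : ((TG G A l L (k + 1) s).card : ℝ) = ∑ p ∈ G, ∑ u : Fin l → Fin L,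
      if (∀ i ≤ k + 1, p + X s u i ∈ A) then (1 : ℝ) else 0 := by
    unfold TG
    rw [Finset.card_filter]
    push_cast
    rw [Finset.sum_product]
  have h2 : ∑ c ∈ TG G A l L k s, (((range L).filter (fun v => yy k s c + v ∈ A)).card : ℝ) =
      ∑ p ∈ G, ∑ u : Fin l → Fin L, if (∀ i ≤ k, p + X s u i ∈ A) then
        (((range L).filter (fun v => yy k s (p, u) + v ∈ A)).card : ℝ) else 0 := by
    unfold TG
    rw [Finset.sum_filter, Finset.sum_product]
  rw [h1, h2, Finset.mul_sum]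
  apply Finset.sum_congr rfl
  intro p _
  rw [← sum_update ⟨k, hk⟩]
  apply Finset.sum_congr rfl
  intro u _
  have h3 : ∀ v : Fin L, (∀ i ≤ k + 1, p + X s (Function.update u ⟨k, hk⟩ v) i ∈ A) ↔
      (∀ i ≤ k, p + X s u i ∈ A) ∧ yy k s (p, u) + (v : ℕ) ∈ A := by
    intro v
    have hu := X_update s u ⟨k, hk⟩ v
    have hu' := X_update_succ s u ⟨k, hk⟩ v
    simp only at hu hu'
    constructor
    · intro h
      refine ⟨fun i hi => ?_, ?_⟩
      · rw [← hu i hi]; exact h i (by omega)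
      · have := h (k + 1) le_rfl
        rw [hu'] at this
        unfold yy
        simp only
        rw [add_assoc]
        exact this
    · rintro ⟨h, h'⟩ i hi
      rcases Nat.lt_or_ge k i with hlt | hle
      · have : i = k + 1 := by omega
        subst this
        rw [hu']
        unfold yy at h'
        simp only at h'
        rw [add_assoc] at h'
        exact h'
      · rw [hu i hle]; exact h i hle
  simp only [h3]
  by_cases hall : ∀ i ≤ k, p + X s u i ∈ A
  · have h4 : ∀ v : Fin L, ((∀ i ≤ k, p + X s u i ∈ A) ∧ yy k s (p, u) + (v : ℕ) ∈ A) ↔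
        yy k s (p, u) + (v : ℕ) ∈ A := fun v => and_iff_right hall
    simp only [h4]
    rw [if_pos hall]
    rw [Fin.sum_univ_eq_sum_range (fun v : ℕ => if yy k s (p, u) + v ∈ A then (1 : ℝ) else 0) L,
      Finset.sum_boole]
  · rw [if_neg hall]
    apply Finset.sum_eq_zero
    intro v _
    rw [if_neg]
    exact fun h => hall h.1

/-- elements of `A` in `[y, y+B^2)` versus blocks -/
theorem count_ge {A J : Finset ℕ} {B y : ℕ} (hB : 0 < B) {m : ℝ} (hm : 0 ≤ m)
    (h : ∀ j ∈ II B y, j ∉ J → m ≤ bc A B j) :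
    m * ((B : ℝ) - 1 - ((II B y).filter (fun j => j ∈ J)).card) ≤
      ((range (B ^ 2)).filter (fun v => y + v ∈ A)).card := by
  classical
  have h1 : ∑ j ∈ (II B y).filter (fun j => j ∉ J), bc A B j ≤
      ((range (B ^ 2)).filter (fun v => y + v ∈ A)).card := by
    have h2 : ∑ j ∈ (II B y).filter (fun j => j ∉ J), bc A B j =
        (((II B y).filter (fun j => j ∉ J)).sigma (fun j => A.filter (fun n => n / B = j))).card := by
      rw [Finset.card_sigma]; rfl
    rw [h2]
    apply Finset.card_le_card_of_injOn (fun e => e.2 - y)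
    · rintro ⟨j, n⟩ he
      simp only [Finset.mem_coe, Finset.mem_sigma, Finset.mem_filter, mem_II hB] at he
      obtain ⟨⟨⟨hj1, hj2⟩, _⟩, hnA, hnj⟩ := he
      simp only [Finset.mem_coe, Finset.mem_filter, Finset.mem_range]
      have a1 := Nat.div_mul_le_self n B
      have a2 := Nat.lt_mul_div_succ n hB
      rw [hnj] at a1 a2
      have a3 : B * (j + 1) = (j + 1) * B := mul_comm _ _
      have a4 : y + (n - y) = n := by omega
      refine ⟨by omega, ?_⟩
      rw [a4]; exact hnA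
    · rintro ⟨j, n⟩ he ⟨j', n'⟩ he' hee
      simp only [Finset.mem_coe, Finset.mem_sigma, Finset.mem_filter, mem_II hB] at he he'
      obtain ⟨⟨⟨hj1, hj2⟩, _⟩, hnA, hnj⟩ := he
      obtain ⟨⟨⟨hj1', hj2'⟩, _⟩, hnA', hnj'⟩ := he'
      simp only at hee
      have a1 := Nat.div_mul_le_self n B
      rw [hnj] at a1
      have a1' := Nat.div_mul_le_self n' B
      rw [hnj'] at a1'
      have hn : n = n' := by omega
      subst hn
      have : j = j' := by rw [← hnj, ← hnj']
      subst this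
      rfl
  have h3 : m * ((II B y).filter (fun j => j ∉ J)).card ≤
      ∑ j ∈ (II B y).filter (fun j => j ∉ J), (bc A B j : ℝ) := by
    rw [mul_comm, ← nsmul_eq_mul]
    apply Finset.card_nsmul_le_sum
    intro j hj
    rw [Finset.mem_filter] at hj
    exact h j hj.1 hj.2
  have h4 : (B : ℝ) - 1 - ((II B y).filter (fun j => j ∈ J)).card ≤
      ((II B y).filter (fun j => j ∉ J)).card := by
    have h5 := Finset.card_filter_add_card_filter_not (s := II B y) (fun j => j ∈ J)
    have h6 := card_II_ge hB y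
    have h7 : (B : ℝ) ≤ ((II B y).filter (fun j => j ∈ J)).card +
        ((II B y).filter (fun j => j ∉ J)).card + 1 := by
      have : B ≤ ((II B y).filter (fun j => j ∈ J)).card +
        ((II B y).filter (fun j => j ∉ J)).card + 1 := by omega
      exact_mod_cast this
    linarith
  calc _ ≤ m * ((II B y).filter (fun j => j ∉ J)).card := mul_le_mul_of_nonneg_left h4 hm
    _ ≤ _ := h3
    _ ≤ _ := by exact_mod_cast h1

/-- The bad incidences. -/
theorem bad_le {G A J : Finset ℕ} {l B k Z : ℕ} {s : ℕ → ℕ → ℕ} (hB : 0 < B)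
    (hA : ∀ p ∈ A, p.Prime ∧ p < Z) (hG : G ⊆ A) :
    (∑ c ∈ TG G A l (B ^ 2) k s, (((II B (yy k s c)).filter (fun j => j ∈ J)).card : ℝ)) ^ 2 ≤
      J.card * (B * (PR l (B ^ 2) k Z s).card) := by
  classical
  set T := TG G A l (B ^ 2) k s with hT
  have h1 : ∑ c ∈ T, (((II B (yy k s c)).filter (fun j => j ∈ J)).card : ℝ) =
      ∑ j ∈ J, ((T.filter (fun c => j ∈ II B (yy k s c))).card : ℝ) := by
    have e1 : ∀ c ∈ T, (((II B (yy k s c)).filter (fun j => j ∈ J)).card : ℝ) =
        ∑ j ∈ J, if j ∈ II B (yy k s c) then (1 : ℝ) else 0 := by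
      intro c _
      rw [Finset.sum_boole]
      congr 2
      ext j
      simp only [Finset.mem_filter]
      tauto
    rw [Finset.sum_congr rfl e1, Finset.sum_comm]
    apply Finset.sum_congr rfl
    intro j _
    rw [Finset.sum_boole]
  rw [h1]
  refine (sq_sum_le_card_mul_sum_sq).trans ?_
  apply mul_le_mul_of_nonneg_left _ (by positivity)
  have hTP : ∀ c ∈ T, c ∈ TP l (B ^ 2) k Z s := by
    intro c hc
    rw [hT, mem_TG] at hc
    rw [mem_TP]
    exact ⟨(hA _ (hG hc.1)).2, fun i hi => (hA _ (hc.2 i hi)).1⟩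
  have h2 : ∑ j ∈ J, ((T.filter (fun c => j ∈ II B (yy k s c))).card) ^ 2 ≤
      B * (PR l (B ^ 2) k Z s).card := by
    calc ∑ j ∈ J, ((T.filter (fun c => j ∈ II B (yy k s c))).card) ^ 2
        = (J.sigma (fun j => (T.filter (fun c => j ∈ II B (yy k s c))) ×ˢ
            (T.filter (fun c => j ∈ II B (yy k s c))))).card := by
          rw [Finset.card_sigma]
          apply Finset.sum_congr rfl
          intro j _
          rw [Finset.card_product, sq]
      _ ≤ ((PR l (B ^ 2) k Z s).sigma (fun e => II B (yy k s e.1))).card := by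
          apply Finset.card_le_card_of_injOn (fun e => ⟨e.2, e.1⟩)
          · rintro ⟨j, c, c'⟩ he
            simp only [Finset.mem_coe, Finset.mem_sigma, Finset.mem_product,
              Finset.mem_filter] at he
            obtain ⟨_, ⟨hc, hcj⟩, ⟨hc', hcj'⟩⟩ := he
            simp only [PR, Finset.mem_coe, Finset.mem_sigma, Finset.mem_product,
              Finset.mem_filter]
            refine ⟨⟨⟨hTP c hc, hTP c' hc'⟩, ?_⟩, hcj⟩
            rw [mem_II hB] at hcj hcj'
            have a1 : (j + 1) * B = j * B + B := Nat.succ_mul j B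
            rw [abs_lt]
            omega
          · rintro ⟨j, c, c'⟩ _ ⟨j', d, d'⟩ _ h
            simp only [Sigma.mk.injEq, Prod.mk.injEq, heq_eq_eq] at h
            obtain ⟨⟨h1, h2⟩, h3⟩ := h
            subst h1; subst h2; subst h3
            rfl
      _ = ∑ e ∈ PR l (B ^ 2) k Z s, (II B (yy k s e.1)).card := Finset.card_sigma _ _
      _ ≤ ∑ _e ∈ PR l (B ^ 2) k Z s, B := Finset.sum_le_sum fun e _ => card_II_le hB _
      _ = B * (PR l (B ^ 2) k Z s).card := by
          rw [Finset.sum_const, smul_eq_mul, mul_comm]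
  exact_mod_cast h2

/-- One step of the induction. -/
theorem step {G A J : Finset ℕ} {l B k Z S : ℕ} {s : ℕ → ℕ → ℕ} (hk : k < l) (hB : 2 ≤ B)
    {δ ε lz τ C : ℝ} (hδ : 0 < δ) (hε : 0 < ε) (hlz : 0 < lz) (hτ : 0 < τ) (hC : 0 < C)
    (hZ : 0 < Z)
    (hεC : ε * C ≤ τ ^ 2 / 16)
    (hA : ∀ p ∈ A, p.Prime ∧ p < Z) (hG : G ⊆ A)
    (hJ : (J.card : ℝ) ≤ ε * (Z / B))
    (hgood : ∀ p ∈ G, ∀ j : ℕ, p ≤ j * B → (j + 1) * B ≤ p + S → j ∉ J →
        δ / 4 * (B / lz) ≤ bc A B j)
    (hS : ∀ u : Fin l → Fin (B ^ 2), s k (X s u k) + B ^ 2 ≤ S)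
    (hPR : ((PR l (B ^ 2) k Z s).card : ℝ) ≤
      C * (Z / lz ^ (2 * k + 2)) * ((B ^ 2 : ℕ) : ℝ) ^ (2 * l + 1))
    (hT : τ * (Z / lz ^ (k + 1)) * ((B ^ 2 : ℕ) : ℝ) ^ l ≤ (TG G A l (B ^ 2) k s).card) :
    δ / 16 * τ * (Z / lz ^ (k + 2)) * ((B ^ 2 : ℕ) : ℝ) ^ l ≤
      (TG G A l (B ^ 2) (k + 1) s).card := by
  classical
  have hB0 : 0 < B := by omega
  have hBr : (2 : ℝ) ≤ B := by exact_mod_cast hB
  have hBpos : (0 : ℝ) < B := by linarith
  have hZr : (0 : ℝ) < Z := by exact_mod_cast hZ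
  set Lr : ℝ := ((B ^ 2 : ℕ) : ℝ) with hLr
  have hLr' : Lr = (B : ℝ) ^ 2 := by rw [hLr]; push_cast; rfl
  have hLpos : 0 < Lr := by rw [hLr']; positivity
  set m : ℝ := δ / 4 * (B / lz) with hm
  have hm0 : 0 < m := by positivity
  set Q : ℝ := (Z / lz ^ (k + 1)) * Lr ^ l with hQ
  have hQ0 : 0 < Q := by positivity
  have hT' : τ * Q ≤ (TG G A l (B ^ 2) k s).card := by
    calc τ * Q = τ * (Z / lz ^ (k + 1)) * Lr ^ l := by rw [hQ]; ring
      _ ≤ _ := hT
  set W : ℝ := ∑ c ∈ TG G A l (B ^ 2) k s,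
    (((II B (yy k s c)).filter (fun j => j ∈ J)).card : ℝ) with hW
  have hW0 : 0 ≤ W := Finset.sum_nonneg fun c _ => by positivity
  -- lower bound
  have h1 : m * ((B - 1) * (TG G A l (B ^ 2) k s).card - W) ≤ Lr * (TG G A l (B ^ 2) (k + 1) s).card := by
    rw [card_TG_succ hk]
    calc m * ((B - 1) * (TG G A l (B ^ 2) k s).card - W) =
        ∑ c ∈ TG G A l (B ^ 2) k s, m * ((B : ℝ) - 1 -
          ((II B (yy k s c)).filter (fun j => j ∈ J)).card) := by
          rw [hW, ← Finset.mul_sum, Finset.sum_sub_distrib, Finset.sum_const, nsmul_eq_mul]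
          ring
      _ ≤ _ := by
          apply Finset.sum_le_sum
          intro c hc
          rw [mem_TG] at hc
          apply count_ge hB0 hm0.le
          intro j hj hjJ
          rw [mem_II hB0] at hj
          apply hgood c.1 hc.1 j _ _ hjJ
          · refine le_trans ?_ hj.1
            unfold yy; omega
          · refine hj.2.trans ?_
            have := hS c.2
            unfold yy; omega
  -- upper bound for W
  have h2 : W ≤ τ / 4 * B * Q := by
    have h3 := bad_le (l := l) (k := k) (s := s) (J := J) hB0 hA hG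
    rw [← hW] at h3
    have h4 : W ^ 2 ≤ (τ / 4 * B * Q) ^ 2 := by
      calc W ^ 2 ≤ J.card * (B * (PR l (B ^ 2) k Z s).card) := h3
        _ ≤ (ε * (Z / B)) * (B * (C * (Z / lz ^ (2 * k + 2)) * Lr ^ (2 * l + 1))) := by
            apply mul_le_mul hJ _ (by positivity) (by positivity)
            exact mul_le_mul_of_nonneg_left hPR hBpos.le
        _ = (ε * C) * (B * Q) ^ 2 := by
            rw [hQ, hLr']
            field_simp
            ring
        _ ≤ τ ^ 2 / 16 * (B * Q) ^ 2 := mul_le_mul_of_nonneg_right hεC (by positivity)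
        _ = _ := by ring
    exact (pow_le_pow_iff_left₀ hW0 (by positivity) two_ne_zero).mp h4
  have h5 : τ / 4 * B * Q ≤ (B - 1) * (TG G A l (B ^ 2) k s).card - W := by
    have h6 : (B : ℝ) / 2 * (τ * Q) ≤ (B - 1) * (TG G A l (B ^ 2) k s).card := by
      calc (B : ℝ) / 2 * (τ * Q) ≤ (B - 1) * (τ * Q) := by
            apply mul_le_mul_of_nonneg_right _ (by positivity)
            linarith
        _ ≤ _ := mul_le_mul_of_nonneg_left hT' (by linarith)
    linarith
  have h6 : m * (τ / 4 * B * Q) ≤ Lr * (TG G A l (B ^ 2) (k + 1) s).card :=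
    (mul_le_mul_of_nonneg_left h5 hm0.le).trans h1
  have h7 : m * (τ / 4 * B * Q) = Lr * (δ / 16 * τ * (Z / lz ^ (k + 2)) * Lr ^ l) := by
    rw [hm, hQ, hLr']
    field_simp
    ring
  rw [h7] at h6
  exact le_of_mul_le_mul_left h6 hLpos

end Pool.Agent.Helper57.FP
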