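import Pool.Agent.Helper57.FP.Tree

/-!
# Pairs of prime tuples at distance less than `L`
-/

set_option autoImplicit false

open Finset Real

namespace Pool.Agent.Helper57.FP

theorem Psi_zero (s : ℕ) : Psi s 0 = 1 := by simp [Psi]

theorem two_pow_le_four_pow (L : ℕ) : 2 ^ L ≤ 4 ^ L := Nat.pow_le_pow_left (by norm_num) L

/-- average of `Psi` of the differences of the tree -/
theorem psi_tree (σ : ℕ) : ∃ C : ℝ, 0 < C ∧ ∀ (k l L : ℕ) (s : ℕ → ℕ → ℕ), k ≤ l → 1 ≤ L →
    (∀ i x, x < s i x) → (∀ (u : Fin l → Fin L) (i : ℕ), i ≤ k → X s u i ≤ 2 ^ L) →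
    ∀ i j : ℕ, i ≤ k → j ≤ k →
      ∑ u : Fin l → Fin L, Psi σ ((X s u i : ℤ) - X s u j) ≤ C * (L : ℝ) ^ l := by
  obtain ⟨C, hC, havg⟩ := psi_avg σ
  refine ⟨C + 1, by positivity, ?_⟩
  intro k l L s hkl hL hs hX
  have key : ∀ i j : ℕ, i ≤ k → j < i →
      ∑ u : Fin l → Fin L, Psi σ ((X s u i : ℤ) - X s u j) ≤ (C + 1) * (L : ℝ) ^ l := by
    intro i j hi hj
    obtain ⟨m, rfl⟩ : ∃ m, i = m + 1 := ⟨i - 1, by omega⟩
    have hm : m < l := by omega
    have h1 : ∑ u : Fin l → Fin L, Psi σ ((X s u (m + 1) : ℤ) - X s u j) ≤ C * (L : ℝ) ^ l := by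
      apply sum_le_of_update hL ⟨m, hm⟩
      intro u
      have h2 : ∀ v : Fin L, (X s (Function.update u ⟨m, hm⟩ v) (m + 1) : ℤ) -
          X s (Function.update u ⟨m, hm⟩ v) j = ((s m (X s u m) : ℤ) - X s u j) + (v : ℕ) := by
        intro v
        have h3 := X_update_succ s u ⟨m, hm⟩ v
        have h4 := X_update s u ⟨m, hm⟩ v j (by simpa using (by omega : j ≤ m))
        simp only at h3
        rw [h3, h4]
        push_cast
        ring
      simp only [h2]
      rw [Fin.sum_univ_eq_sum_range (fun v : ℕ => Psi σ (((s m (X s u m) : ℤ) - X s u j) + (v : ℕ))) L]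
      apply havg L hL
      intro v hv
      have h5 := h2 ⟨v, hv⟩
      simp only at h5
      rw [← h5]
      have h6 := hX (Function.update u ⟨m, hm⟩ ⟨v, hv⟩) (m + 1) hi
      have h7 := hX (Function.update u ⟨m, hm⟩ ⟨v, hv⟩) j (by omega)
      have h8 := two_pow_le_four_pow L
      omega
    have : 0 ≤ (L : ℝ) ^ l := by positivity
    linarith
  intro i j hi hj
  rcases lt_trichotomy i j with h | h | h
  · have h1 := key j i hj h
    have h2 : ∀ u : Fin l → Fin L, Psi σ ((X s u i : ℤ) - X s u j) = Psi σ ((X s u j : ℤ) - X s u i) := by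
      intro u
      rw [← Psi_neg]; congr 1; ring
    simp only [h2]
    exact h1
  · subst h
    simp only [sub_self, Psi_zero, Finset.sum_const, Finset.card_univ, Fintype.card_fun,
      Fintype.card_fin, nsmul_eq_mul, mul_one]
    push_cast
    have : 0 ≤ (L : ℝ) ^ l := by positivity
    nlinarith
  · exact key i j hi h

/-- prime tuples -/
noncomputable def TP (l L k Z : ℕ) (s : ℕ → ℕ → ℕ) : Finset (ℕ × (Fin l → Fin L)) := by
  classical exact (range Z ×ˢ univ).filter (fun c => ∀ i ≤ k, (c.1 + X s c.2 i).Prime)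

theorem mem_TP {l L k Z : ℕ} {s : ℕ → ℕ → ℕ} {c : ℕ × (Fin l → Fin L)} :
    c ∈ TP l L k Z s ↔ c.1 < Z ∧ ∀ i ≤ k, (c.1 + X s c.2 i).Prime := by
  classical
  unfold TP
  rw [Finset.mem_filter, Finset.mem_product, Finset.mem_range]
  simp

/-- the base point of the next interval -/
def yy {l L : ℕ} (k : ℕ) (s : ℕ → ℕ → ℕ) (c : ℕ × (Fin l → Fin L)) : ℕ := c.1 + s k (X s c.2 k)

/-- the pairs -/
noncomputable def PR (l L k Z : ℕ) (s : ℕ → ℕ → ℕ) :
    Finset ((ℕ × (Fin l → Fin L)) × (ℕ × (Fin l → Fin L))) := by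
  classical
  exact (TP l L k Z s ×ˢ TP l L k Z s).filter (fun e => |(yy k s e.1 : ℤ) - yy k s e.2| < L)

/-- difference of the shifts -/
def hh {l L : ℕ} (k : ℕ) (s : ℕ → ℕ → ℕ) (u u' : Fin l → Fin L) (i : ℕ) : ℤ :=
  ((s k (X s u k) : ℤ) - s k (X s u' k)) - L + i

/-- the `2k+2` shifts -/
def YY {l L : ℕ} (k : ℕ) (s : ℕ → ℕ → ℕ) (u u' : Fin l → Fin L) (h : ℕ) :
    Fin (k + 1) ⊕ Fin (k + 1) → ℕ :=
  Sum.elim (fun j => X s u j) (fun j => h + X s u' j)

/-- the count for fixed `u,u',i` -/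
noncomputable def GG {l L : ℕ} (k Z : ℕ) (s : ℕ → ℕ → ℕ) (u u' : Fin l → Fin L) (i : ℕ) : ℝ :=
  if 0 ≤ hh k s u u' i then
    (((range Z).filter (fun n => ∀ a, (n + YY k s u u' (hh k s u u' i).toNat a).Prime)).card : ℝ)
  else 0

theorem card_PR_le (l L k Z : ℕ) (s : ℕ → ℕ → ℕ) :
    ((PR l L k Z s).card : ℝ) ≤ 2 * ∑ u : Fin l → Fin L, ∑ u' : Fin l → Fin L,
      ∑ i ∈ range (2 * L), GG k Z s u u' i := by
  classical
  set P1 := (PR l L k Z s).filter (fun e => e.1.1 ≤ e.2.1) with hP1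
  set P2 := (PR l L k Z s).filter (fun e => ¬ e.1.1 ≤ e.2.1) with hP2
  have h1 : (PR l L k Z s).card = P1.card + P2.card := by
    rw [hP1, hP2, Finset.card_filter_add_card_filter_not]
  have h2 : P2.card ≤ P1.card := by
    apply Finset.card_le_card_of_injOn (fun e => (e.2, e.1))
    · intro e he
      rw [hP2, PR] at he
      simp only [Finset.mem_coe, Finset.mem_filter, Finset.mem_product] at he
      rw [hP1, PR]
      simp only [Finset.mem_coe, Finset.mem_filter, Finset.mem_product]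
      refine ⟨⟨⟨he.1.1.2, he.1.1.1⟩, ?_⟩, ?_⟩
      · rw [abs_sub_comm]; exact he.1.2
      · omega
    · intro e _ e' _ h
      simp only [Prod.mk.injEq] at h
      exact Prod.ext h.2 h.1
  set Q := (((univ : Finset (Fin l → Fin L)) ×ˢ (univ : Finset (Fin l → Fin L))) ×ˢ range (2 * L) ×ˢ
    range Z).filter (fun t => 0 ≤ hh k s t.1.1 t.1.2 t.2.1 ∧
      ∀ a, (t.2.2 + YY k s t.1.1 t.1.2 (hh k s t.1.1 t.1.2 t.2.1).toNat a).Prime) with hQ
  have h3 : P1.card ≤ Q.card := by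
    apply Finset.card_le_card_of_injOn (fun e => ((e.1.2, e.2.2),
      ((((e.2.1 : ℤ) - e.1.1) - ((s k (X s e.1.2 k) : ℤ) - s k (X s e.2.2 k)) + L).toNat, e.1.1)))
    · intro e he
      rw [hP1, PR] at he
      simp only [Finset.mem_coe, Finset.mem_filter, Finset.mem_product,
        mem_TP] at he
      obtain ⟨⟨⟨⟨hp, hpr⟩, ⟨hp', hpr'⟩⟩, hd⟩, hle⟩ := he
      unfold yy at hd
      rw [abs_lt] at hd
      push_cast at hd
      have hnn : 0 ≤ ((e.2.1 : ℤ) - e.1.1) - ((s k (X s e.1.2 k) : ℤ) - s k (X s e.2.2 k)) + L := by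
        omega
      have hh1 : hh k s e.1.2 e.2.2
          (((e.2.1 : ℤ) - e.1.1) - ((s k (X s e.1.2 k) : ℤ) - s k (X s e.2.2 k)) + L).toNat =
          (e.2.1 : ℤ) - e.1.1 := by
        unfold hh
        rw [Int.toNat_of_nonneg hnn]
        ring
      rw [hQ]
      simp only [Finset.mem_coe, Finset.mem_filter, Finset.mem_product,
        Finset.mem_univ, Finset.mem_range, true_and, and_self]
      refine ⟨⟨by omega, hp⟩, ?_, ?_⟩
      · rw [hh1]; omega
      · rw [hh1]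
        rintro (a | a)
        · exact hpr a (by have := a.2; omega)
        · have h4 := hpr' a (by have := a.2; omega)
          have h5 : e.1.1 + YY k s e.1.2 e.2.2 ((e.2.1 : ℤ) - e.1.1).toNat (Sum.inr a) =
              e.2.1 + X s e.2.2 a := by
            show e.1.1 + (((e.2.1 : ℤ) - e.1.1).toNat + X s e.2.2 a) = _
            omega
          rw [h5]; exact h4
    · intro e he e' he' h
      rw [hP1, PR] at he he'
      simp only [Finset.mem_coe, Finset.mem_filter, Finset.mem_product,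
        mem_TP] at he he'
      obtain ⟨⟨⟨⟨hp, hpr⟩, ⟨hp', hpr'⟩⟩, hd⟩, hle⟩ := he
      obtain ⟨⟨⟨⟨hq, hqr⟩, ⟨hq', hqr'⟩⟩, hd'⟩, hle'⟩ := he'
      simp only [Prod.mk.injEq] at h
      obtain ⟨⟨h1, h2⟩, h3, h4⟩ := h
      unfold yy at hd hd'
      rw [abs_lt] at hd hd'
      push_cast at hd hd'
      rw [h1, h2, h4] at h3
      rw [h1, h2, h4] at hd
      have h5 : e.2.1 = e'.2.1 := by omega
      exact Prod.ext (Prod.ext h4 h1) (Prod.ext h5 h2)
  have h4 : (Q.card : ℝ) = ∑ u : Fin l → Fin L, ∑ u' : Fin l → Fin L,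
      ∑ i ∈ range (2 * L), GG k Z s u u' i := by
    rw [hQ, Finset.card_filter]
    push_cast
    rw [Finset.sum_product, Finset.sum_product]
    apply Finset.sum_congr rfl
    intro u _
    apply Finset.sum_congr rfl
    intro u' _
    rw [Finset.sum_product]
    apply Finset.sum_congr rfl
    intro i _
    unfold GG
    by_cases h : 0 ≤ hh k s u u' i
    · simp only [h, true_and, if_true]
      rw [Finset.card_filter]
      push_cast
      rfl
    · simp [h]
  have h5 : ((PR l L k Z s).card : ℝ) = P1.card + P2.card := by exact_mod_cast h1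
  have h6 : (P2.card : ℝ) ≤ P1.card := by exact_mod_cast h2
  have h7 : (P1.card : ℝ) ≤ Q.card := by exact_mod_cast h3
  rw [← h4]
  linarith

/-- the `Psi` sum for fixed `u,u',i` -/
noncomputable def WW {l L : ℕ} (σ k : ℕ) (s : ℕ → ℕ → ℕ) (u u' : Fin l → Fin L) (i : ℕ) : ℝ :=
  ∑ a : Fin (k + 1), ∑ b : Fin (k + 1), Psi σ ((X s u a : ℤ) - X s u b) +
  ∑ a : Fin (k + 1), ∑ b : Fin (k + 1), Psi σ (hh k s u u' i + (X s u' b - X s u a)) +
  ∑ a : Fin (k + 1), ∑ b : Fin (k + 1), Psi σ (hh k s u u' i + (X s u' a - X s u b)) +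
  ∑ a : Fin (k + 1), ∑ b : Fin (k + 1), Psi σ ((X s u' a : ℤ) - X s u' b)

/-- number of coincidences -/
noncomputable def NN {l L : ℕ} (k : ℕ) (s : ℕ → ℕ → ℕ) (u u' : Fin l → Fin L) (i : ℕ) : ℝ :=
  ∑ a : Fin (k + 1), ∑ b : Fin (k + 1), if hh k s u u' i + (X s u' b - X s u a) = 0 then (1 : ℝ) else 0

theorem sum_YY {l L : ℕ} (σ k : ℕ) (s : ℕ → ℕ → ℕ) (u u' : Fin l → Fin L) (i : ℕ)
    (h : 0 ≤ hh k s u u' i) :
    ∑ a, ∑ b, Psi σ ((YY k s u u' (hh k s u u' i).toNat a : ℤ) - YY k s u u' (hh k s u u' i).toNat b) =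
      WW σ k s u u' i := by
  have h1 : (((hh k s u u' i).toNat : ℕ) : ℤ) = hh k s u u' i := Int.toNat_of_nonneg h
  unfold WW YY
  simp only [Fintype.sum_sum_type, Sum.elim_inl, Sum.elim_inr, Finset.sum_add_distrib]
  push_cast
  simp only [h1]
  have e1 : ∀ a b : Fin (k + 1), Psi σ ((X s u a : ℤ) - (hh k s u u' i + X s u' b)) =
      Psi σ (hh k s u u' i + (X s u' b - X s u a)) := by
    intro a b
    rw [← Psi_neg]; congr 1; ring
  have e2 : ∀ a b : Fin (k + 1), Psi σ ((hh k s u u' i + X s u' a : ℤ) - X s u b) =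
      Psi σ (hh k s u u' i + (X s u' a - X s u b)) := by
    intro a b
    congr 1; ring
  have e3 : ∀ a b : Fin (k + 1), Psi σ ((hh k s u u' i + X s u' a : ℤ) - (hh k s u u' i + X s u' b)) =
      Psi σ ((X s u' a : ℤ) - X s u' b) := by
    intro a b
    congr 1; ring
  simp only [e1, e2, e3]
  ring

theorem GG_le (k : ℕ) : ∃ C : ℝ, 0 < C ∧ ∃ (σ Z0 : ℕ), ∀ Z : ℕ, Z0 ≤ Z → ∀ (l L : ℕ)
    (s : ℕ → ℕ → ℕ), (∀ i x, x < s i x) → ∀ (u u' : Fin l → Fin L) (i : ℕ),
    GG k Z s u u' i ≤ C * (Z / (Real.log Z) ^ (2 * k + 2)) * (1 + WW σ k s u u' i) +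
      Z * NN k s u u' i := by
  classical
  obtain ⟨C, hC, Z0, hS⟩ := sieve_shift (Fin (k + 1) ⊕ Fin (k + 1)) (2 * k + 2) (by
    simp; ring)
  refine ⟨C, hC, 2 * (2 * k + 2) * ((2 * k + 2) * (2 * k + 2)), max Z0 2, ?_⟩
  intro Z hZ l L s hs u u' i
  have hZ0 : Z0 ≤ Z := (le_max_left _ _).trans hZ
  have hZ2 : 2 ≤ Z := (le_max_right _ _).trans hZ
  have hZr : (1 : ℝ) < Z := by exact_mod_cast hZ2
  have hlog : 0 < Real.log Z := Real.log_pos hZr
  have hWpos : ∀ σ, 0 ≤ WW σ k s u u' i := by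
    intro σ
    unfold WW
    have : ∀ f : Fin (k + 1) → Fin (k + 1) → ℤ, 0 ≤ ∑ a, ∑ b, Psi σ (f a b) := fun f =>
      Finset.sum_nonneg fun a _ => Finset.sum_nonneg fun b _ => (Psi_pos _ _).le
    have h1 := this (fun a b => (X s u a : ℤ) - X s u b)
    have h2 := this (fun a b => hh k s u u' i + (X s u' b - X s u a))
    have h3 := this (fun a b => hh k s u u' i + (X s u' a - X s u b))
    have h4 := this (fun a b => (X s u' a : ℤ) - X s u' b)
    linarith
  have hNpos : 0 ≤ NN k s u u' i := by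
    unfold NN
    apply Finset.sum_nonneg; intro a _
    apply Finset.sum_nonneg; intro b _
    split_ifs <;> norm_num
  have hZq : 0 ≤ (Z : ℝ) / (Real.log Z) ^ (2 * k + 2) := by positivity
  unfold GG
  split_ifs with h0
  · by_cases hinj : Function.Injective (YY k s u u' (hh k s u u' i).toNat)
    · have h1 := hS Z hZ0 _ hinj
      rw [sum_YY _ k s u u' i h0] at h1
      have h2 : 0 ≤ (Z : ℝ) * NN k s u u' i := by positivity
      calc _ ≤ _ := h1
        _ = C * (Z / (Real.log Z) ^ (2 * k + 2)) *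
            (1 + WW (2 * (2 * k + 2) * ((2 * k + 2) * (2 * k + 2))) k s u u' i) := by ring
        _ ≤ _ := by linarith
    · have h1 : 1 ≤ NN k s u u' i := by
        have hex : ∃ a b : Fin (k + 1), hh k s u u' i + (X s u' b - X s u a) = 0 := by
          by_contra hne
          push Not at hne
          apply hinj
          have hcast : (((hh k s u u' i).toNat : ℕ) : ℤ) = hh k s u u' i := Int.toNat_of_nonneg h0
          rintro (a | a) (b | b) hab
          · have h2 : X s u a = X s u b := hab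
            have h3 := (X_strictMono hs u).injective h2
            rw [Fin.ext h3]
          · exfalso
            have h2 : X s u a = (hh k s u u' i).toNat + X s u' b := hab
            apply hne a b
            rw [← hcast, h2]
            push_cast
            ring
          · exfalso
            have h2 : (hh k s u u' i).toNat + X s u' a = X s u b := hab
            apply hne b a
            rw [← hcast, ← h2]
            push_cast
            ring
          · have h2 : (hh k s u u' i).toNat + X s u' a = (hh k s u u' i).toNat + X s u' b := hab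
            have h3 := (X_strictMono hs u').injective (Nat.add_left_cancel h2)
            rw [Fin.ext h3]
        obtain ⟨a, b, hab⟩ := hex
        unfold NN
        have hnn : ∀ a b : Fin (k + 1),
            (0 : ℝ) ≤ if hh k s u u' i + (X s u' b - X s u a) = 0 then (1 : ℝ) else 0 := by
          intro a b; split_ifs <;> norm_num
        calc (1 : ℝ) = if hh k s u u' i + (X s u' b - X s u a) = 0 then (1 : ℝ) else 0 := by
              rw [if_pos hab]
          _ ≤ ∑ b : Fin (k + 1), if hh k s u u' i + (X s u' b - X s u a) = 0 then (1 : ℝ) else 0 :=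
              Finset.single_le_sum (f := fun b : Fin (k + 1) =>
                if hh k s u u' i + (X s u' b - X s u a) = 0 then (1 : ℝ) else 0)
                (fun b _ => hnn a b) (Finset.mem_univ b)
          _ ≤ _ := Finset.single_le_sum (f := fun a : Fin (k + 1) => ∑ b : Fin (k + 1),
                if hh k s u u' i + (X s u' b - X s u a) = 0 then (1 : ℝ) else 0)
                (fun a _ => Finset.sum_nonneg fun b _ => hnn a b) (Finset.mem_univ a)
      have h2 : (((range Z).filter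
          (fun n => ∀ a, (n + YY k s u u' (hh k s u u' i).toNat a).Prime)).card : ℝ) ≤ Z := by
        have := Finset.card_filter_le (range Z)
          (fun n => ∀ a, (n + YY k s u u' (hh k s u u' i).toNat a).Prime)
        rw [Finset.card_range] at this
        exact_mod_cast this
      have h3 : 0 ≤ C * (Z / (Real.log Z) ^ (2 * k + 2)) * (1 +
          WW (2 * (2 * k + 2) * ((2 * k + 2) * (2 * k + 2))) k s u u' i) := by
        have := hWpos (2 * (2 * k + 2) * ((2 * k + 2) * (2 * k + 2)))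
        positivity
      have h4 : (Z : ℝ) ≤ Z * NN k s u u' i := le_mul_of_one_le_right (by linarith) h1
      linarith
  · have h3 : 0 ≤ C * (Z / (Real.log Z) ^ (2 * k + 2)) * (1 +
        WW (2 * (2 * k + 2) * ((2 * k + 2) * (2 * k + 2))) k s u u' i) := by
      have := hWpos (2 * (2 * k + 2) * ((2 * k + 2) * (2 * k + 2)))
      positivity
    have h2 : 0 ≤ (Z : ℝ) * NN k s u u' i := by positivity
    linarith

theorem sum_WW_le (σ : ℕ) : ∃ C : ℝ, 0 < C ∧ ∀ (k l L : ℕ) (s : ℕ → ℕ → ℕ), k ≤ l → 1 ≤ L →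
    (∀ i x, x < s i x) → (∀ (u : Fin l → Fin L) (i : ℕ), i ≤ k → X s u i ≤ 2 ^ L) →
    (∀ (u : Fin l → Fin L), s k (X s u k) ≤ 2 ^ L) →
    ∑ u : Fin l → Fin L, ∑ u' : Fin l → Fin L, ∑ i ∈ range (2 * L), (1 + WW σ k s u u' i) ≤
      C * (k + 1) ^ 2 * (L : ℝ) ^ (2 * l + 1) := by
  obtain ⟨C1, hC1, hT⟩ := psi_tree σ
  obtain ⟨C2, hC2, hA⟩ := psi_avg σ
  refine ⟨2 + 4 * C1 + 4 * C2, by positivity, ?_⟩
  intro k l L s hkl hL hs hX hsX
  have hL0 : (0 : ℝ) < L := by exact_mod_cast hL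
  have hcard : (Fintype.card (Fin l → Fin L) : ℝ) = (L : ℝ) ^ l := by
    rw [Fintype.card_fun, Fintype.card_fin, Fintype.card_fin]; push_cast; rfl
  have hk1 : ∀ a : Fin (k + 1), (a : ℕ) ≤ k := fun a => by have := a.2; omega
  -- the `u` part
  have hAu : ∑ u : Fin l → Fin L, ∑ a : Fin (k + 1), ∑ b : Fin (k + 1),
      Psi σ ((X s u a : ℤ) - X s u b) ≤ (k + 1) ^ 2 * (C1 * (L : ℝ) ^ l) := by
    rw [Finset.sum_comm]
    calc ∑ a : Fin (k + 1), ∑ u : Fin l → Fin L, ∑ b : Fin (k + 1), Psi σ ((X s u a : ℤ) - X s u b)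
        = ∑ a : Fin (k + 1), ∑ b : Fin (k + 1), ∑ u : Fin l → Fin L,
            Psi σ ((X s u a : ℤ) - X s u b) := by
          apply Finset.sum_congr rfl; intro a _; rw [Finset.sum_comm]
      _ ≤ ∑ _a : Fin (k + 1), ∑ _b : Fin (k + 1), C1 * (L : ℝ) ^ l := by
          apply Finset.sum_le_sum; intro a _
          apply Finset.sum_le_sum; intro b _
          exact hT k l L s hkl hL hs hX a b (hk1 a) (hk1 b)
      _ = _ := by
          simp only [Finset.sum_const, Finset.card_univ, Fintype.card_fin, nsmul_eq_mul]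
          push_cast; ring
  -- the mixed part
  have hmix : ∀ (u u' : Fin l → Fin L) (a b : Fin (k + 1)),
      ∑ i ∈ range (2 * L), Psi σ (hh k s u u' i + (X s u' b - X s u a)) ≤ C2 * (2 * L) := by
    intro u u' a b
    have h1 : ∀ i : ℕ, hh k s u u' i + (X s u' b - X s u a) =
        (((s k (X s u k) : ℤ) - s k (X s u' k)) - L + (X s u' b - X s u a)) + i := by
      intro i; unfold hh; ring
    simp only [h1]
    have := hA (2 * L) (by omega)
      (((s k (X s u k) : ℤ) - s k (X s u' k)) - L + (X s u' b - X s u a)) (by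
        intro i hi
        have a1 := hsX u
        have a2 := hsX u'
        have a3 := hX u' b (hk1 b)
        have a4 := hX u a (hk1 a)
        have a5 : 2 ^ L * 2 ^ L * (2 ^ L * 2 ^ L) = 4 ^ (2 * L) := by
          rw [show (4 : ℕ) = 2 ^ 2 by norm_num, ← pow_mul, ← pow_add, ← pow_add]
          congr 1; ring
        have a6 : L < 2 ^ L := Nat.lt_two_pow_self
        have a7 : 2 ≤ 2 ^ L := by
          calc 2 = 2 ^ 1 := rfl
            _ ≤ 2 ^ L := Nat.pow_le_pow_right (by norm_num) hL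
        have a8 : 3 * 2 ^ L ≤ 2 ^ L * 2 ^ L * (2 ^ L * 2 ^ L) := by
          have : 2 * 2 ≤ 2 ^ L * 2 ^ L := Nat.mul_le_mul a7 a7
          have h9 : 4 * 2 ^ L ≤ 2 ^ L * 2 ^ L * 2 ^ L := Nat.mul_le_mul_right _ this
          have h10 : 2 ^ L * 2 ^ L * 2 ^ L ≤ 2 ^ L * 2 ^ L * (2 ^ L * 2 ^ L) := by
            apply Nat.mul_le_mul_left
            exact Nat.le_mul_of_pos_left _ (by positivity)
          omega
        rw [← a5]
        generalize 2 ^ L * 2 ^ L * (2 ^ L * 2 ^ L) = M at a8 ⊢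
        generalize 2 ^ L = N at *
        omega)
    refine this.trans (le_of_eq ?_)
    push_cast; ring
  have hmix' : ∀ (u u' : Fin l → Fin L), ∑ i ∈ range (2 * L), ∑ a : Fin (k + 1),
      ∑ b : Fin (k + 1), Psi σ (hh k s u u' i + (X s u' b - X s u a)) ≤
      (k + 1) ^ 2 * (C2 * (2 * L)) := by
    intro u u'
    rw [Finset.sum_comm]
    calc ∑ a : Fin (k + 1), ∑ i ∈ range (2 * L), ∑ b : Fin (k + 1),
          Psi σ (hh k s u u' i + (X s u' b - X s u a))
        = ∑ a : Fin (k + 1), ∑ b : Fin (k + 1), ∑ i ∈ range (2 * L),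
          Psi σ (hh k s u u' i + (X s u' b - X s u a)) := by
          apply Finset.sum_congr rfl; intro a _; rw [Finset.sum_comm]
      _ ≤ ∑ _a : Fin (k + 1), ∑ _b : Fin (k + 1), C2 * (2 * L) := by
          apply Finset.sum_le_sum; intro a _
          apply Finset.sum_le_sum; intro b _
          exact hmix u u' a b
      _ = _ := by
          simp only [Finset.sum_const, Finset.card_univ, Fintype.card_fin, nsmul_eq_mul]
          push_cast; ring
  have hmix'' : ∀ (u u' : Fin l → Fin L), ∑ i ∈ range (2 * L), ∑ a : Fin (k + 1),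
      ∑ b : Fin (k + 1), Psi σ (hh k s u u' i + (X s u' a - X s u b)) ≤
      (k + 1) ^ 2 * (C2 * (2 * L)) := by
    intro u u'
    refine le_trans (le_of_eq ?_) (hmix' u u')
    apply Finset.sum_congr rfl; intro i _
    rw [Finset.sum_comm]
  -- sum over i
  have h1 : ∀ (u u' : Fin l → Fin L), ∑ i ∈ range (2 * L), (1 + WW σ k s u u' i) ≤
      2 * L + 2 * L * (∑ a : Fin (k + 1), ∑ b : Fin (k + 1), Psi σ ((X s u a : ℤ) - X s u b)) +
      2 * L * (∑ a : Fin (k + 1), ∑ b : Fin (k + 1), Psi σ ((X s u' a : ℤ) - X s u' b)) +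
      2 * ((k + 1) ^ 2 * (C2 * (2 * L))) := by
    intro u u'
    have a1 := hmix' u u'
    have a2 := hmix'' u u'
    unfold WW
    simp only [Finset.sum_add_distrib, Finset.sum_const, Finset.card_range, nsmul_eq_mul, mul_one]
    push_cast
    linarith
  have h2 : ∑ u : Fin l → Fin L, ∑ u' : Fin l → Fin L, ∑ i ∈ range (2 * L),
      (1 + WW σ k s u u' i) ≤
      ∑ u : Fin l → Fin L, ∑ u' : Fin l → Fin L, (2 * L +
      2 * L * (∑ a : Fin (k + 1), ∑ b : Fin (k + 1), Psi σ ((X s u a : ℤ) - X s u b)) +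
      2 * L * (∑ a : Fin (k + 1), ∑ b : Fin (k + 1), Psi σ ((X s u' a : ℤ) - X s u' b)) +
      2 * ((k + 1) ^ 2 * (C2 * (2 * L)))) := by
    apply Finset.sum_le_sum; intro u _
    apply Finset.sum_le_sum; intro u' _
    exact h1 u u'
  refine h2.trans ?_
  simp only [Finset.sum_add_distrib, Finset.sum_const, Finset.card_univ, nsmul_eq_mul, hcard,
    ← Finset.mul_sum]
  have hAu' := hAu
  set S := ∑ u : Fin l → Fin L, ∑ a : Fin (k + 1), ∑ b : Fin (k + 1),
      Psi σ ((X s u a : ℤ) - X s u b) with hS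
  have hl : 0 ≤ (L : ℝ) ^ l := by positivity
  have e1 : (L : ℝ) ^ (2 * l + 1) = (L : ℝ) ^ l * (L : ℝ) ^ l * L := by ring
  rw [e1]
  have h3 : (L : ℝ) ^ l * (2 * L) * S ≤ (L : ℝ) ^ l * (2 * L) * ((k + 1) ^ 2 * (C1 * (L : ℝ) ^ l)) :=
    mul_le_mul_of_nonneg_left hAu' (by positivity)
  have h4 : (1 : ℝ) ≤ (k + 1) ^ 2 := one_le_pow₀ (by linarith [Nat.cast_nonneg (α := ℝ) k])
  have h5 : (L : ℝ) ^ l * (L : ℝ) ^ l * (2 * L) ≤
      (k + 1) ^ 2 * ((L : ℝ) ^ l * (L : ℝ) ^ l * (2 * L)) :=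
    le_mul_of_one_le_left (by positivity) h4
  nlinarith

theorem sum_NN_le (k l L : ℕ) (s : ℕ → ℕ → ℕ) :
    ∑ u : Fin l → Fin L, ∑ u' : Fin l → Fin L, ∑ i ∈ range (2 * L), NN k s u u' i ≤
      (k + 1) ^ 2 * (L : ℝ) ^ (2 * l) := by
  have hcard : (Fintype.card (Fin l → Fin L) : ℝ) = (L : ℝ) ^ l := by
    rw [Fintype.card_fun, Fintype.card_fin, Fintype.card_fin]; push_cast; rfl
  have h0 : ∀ (u u' : Fin l → Fin L) (a b : Fin (k + 1)), ∑ i ∈ range (2 * L),
      (if hh k s u u' i + (X s u' b - X s u a) = 0 then (1 : ℝ) else 0) ≤ 1 := by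
    intro u u' a b
    rw [Finset.sum_boole]
    have : ((range (2 * L)).filter
        (fun i => hh k s u u' i + (X s u' b - X s u a) = 0)).card ≤ 1 := by
      rw [Finset.card_le_one]
      intro i hi j hj
      rw [Finset.mem_filter] at hi hj
      have h1 := hi.2
      have h2 := hj.2
      unfold hh at h1 h2
      omega
    exact_mod_cast this
  have h1 : ∀ (u u' : Fin l → Fin L), ∑ i ∈ range (2 * L), NN k s u u' i ≤ (k + 1) ^ 2 := by
    intro u u'
    unfold NN
    rw [Finset.sum_comm]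
    calc ∑ a : Fin (k + 1), ∑ i ∈ range (2 * L), ∑ b : Fin (k + 1),
          (if hh k s u u' i + (X s u' b - X s u a) = 0 then (1 : ℝ) else 0)
        = ∑ a : Fin (k + 1), ∑ b : Fin (k + 1), ∑ i ∈ range (2 * L),
          (if hh k s u u' i + (X s u' b - X s u a) = 0 then (1 : ℝ) else 0) := by
          apply Finset.sum_congr rfl; intro a _; rw [Finset.sum_comm]
      _ ≤ ∑ _a : Fin (k + 1), ∑ _b : Fin (k + 1), (1 : ℝ) := by
          apply Finset.sum_le_sum; intro a _
          apply Finset.sum_le_sum; intro b _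
          exact h0 u u' a b
      _ = _ := by
          simp only [Finset.sum_const, Finset.card_univ, Fintype.card_fin, nsmul_eq_mul]
          push_cast; ring
  calc _ ≤ ∑ _u : Fin l → Fin L, ∑ _u' : Fin l → Fin L, ((k : ℝ) + 1) ^ 2 := by
        apply Finset.sum_le_sum; intro u _
        apply Finset.sum_le_sum; intro u' _
        exact h1 u u'
    _ = _ := by
        simp only [Finset.sum_const, Finset.card_univ, nsmul_eq_mul, hcard]
        ring

theorem sum3_lin {l L M : ℕ} (F G : (Fin l → Fin L) → (Fin l → Fin L) → ℕ → ℝ) (a b : ℝ) :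
    ∑ u : Fin l → Fin L, ∑ u' : Fin l → Fin L, ∑ i ∈ range M, (a * F u u' i + b * G u u' i) =
      a * (∑ u : Fin l → Fin L, ∑ u' : Fin l → Fin L, ∑ i ∈ range M, F u u' i) +
      b * (∑ u : Fin l → Fin L, ∑ u' : Fin l → Fin L, ∑ i ∈ range M, G u u' i) := by
  simp only [Finset.sum_add_distrib, Finset.mul_sum]

/-- The second moment bound. -/
theorem pair_bound (k : ℕ) : ∃ C : ℝ, 0 < C ∧ ∃ Z0 : ℕ, ∀ Z : ℕ, Z0 ≤ Z → ∀ (l L : ℕ)
    (s : ℕ → ℕ → ℕ), k ≤ l → (Real.log Z) ^ (2 * k + 2) ≤ L →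
    (∀ i x, x < s i x) → (∀ (u : Fin l → Fin L) (i : ℕ), i ≤ k → X s u i ≤ 2 ^ L) →
    (∀ (u : Fin l → Fin L), s k (X s u k) ≤ 2 ^ L) →
    ((PR l L k Z s).card : ℝ) ≤ C * (Z / (Real.log Z) ^ (2 * k + 2)) * (L : ℝ) ^ (2 * l + 1) := by
  obtain ⟨C1, hC1, σ, Z0, hG⟩ := GG_le k
  obtain ⟨C2, hC2, hW⟩ := sum_WW_le σ
  refine ⟨2 * (C1 * C2 * (k + 1) ^ 2 + (k + 1) ^ 2), by positivity, max Z0 3, ?_⟩
  intro Z hZ l L s hkl hLz hs hX hsX
  have hZ0 : Z0 ≤ Z := (le_max_left _ _).trans hZ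
  have hZ3 : 3 ≤ Z := (le_max_right _ _).trans hZ
  have hZr : (3 : ℝ) ≤ Z := by exact_mod_cast hZ3
  have hlog : 0 < Real.log Z := Real.log_pos (by linarith)
  have hlp : 0 < (Real.log Z) ^ (2 * k + 2) := by positivity
  have hL0 : (0 : ℝ) < L := lt_of_lt_of_le hlp hLz
  have hL : 1 ≤ L := by exact_mod_cast hL0
  have h1 := card_PR_le l L k Z s
  have h2 : ∑ u : Fin l → Fin L, ∑ u' : Fin l → Fin L, ∑ i ∈ range (2 * L), GG k Z s u u' i ≤
      ∑ u : Fin l → Fin L, ∑ u' : Fin l → Fin L, ∑ i ∈ range (2 * L),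
        (C1 * (Z / (Real.log Z) ^ (2 * k + 2)) * (1 + WW σ k s u u' i) + Z * NN k s u u' i) := by
    apply Finset.sum_le_sum; intro u _
    apply Finset.sum_le_sum; intro u' _
    apply Finset.sum_le_sum; intro i _
    exact hG Z hZ0 l L s hs u u' i
  have h3 : ∑ u : Fin l → Fin L, ∑ u' : Fin l → Fin L, ∑ i ∈ range (2 * L),
        (C1 * (Z / (Real.log Z) ^ (2 * k + 2)) * (1 + WW σ k s u u' i) + Z * NN k s u u' i) =
      C1 * (Z / (Real.log Z) ^ (2 * k + 2)) *
        (∑ u : Fin l → Fin L, ∑ u' : Fin l → Fin L, ∑ i ∈ range (2 * L), (1 + WW σ k s u u' i)) +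
      Z * ∑ u : Fin l → Fin L, ∑ u' : Fin l → Fin L, ∑ i ∈ range (2 * L), NN k s u u' i :=
    sum3_lin (fun u u' i => 1 + WW σ k s u u' i) (fun u u' i => NN k s u u' i) _ _
  have h4 := hW k l L s hkl hL hs hX hsX
  have h5 := sum_NN_le k l L s
  have h6 : C1 * (Z / (Real.log Z) ^ (2 * k + 2)) *
        (∑ u : Fin l → Fin L, ∑ u' : Fin l → Fin L, ∑ i ∈ range (2 * L), (1 + WW σ k s u u' i)) ≤
      C1 * (Z / (Real.log Z) ^ (2 * k + 2)) * (C2 * (k + 1) ^ 2 * (L : ℝ) ^ (2 * l + 1)) :=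
    mul_le_mul_of_nonneg_left h4 (by positivity)
  have h7 : Z * ∑ u : Fin l → Fin L, ∑ u' : Fin l → Fin L, ∑ i ∈ range (2 * L), NN k s u u' i ≤
      Z * ((k + 1) ^ 2 * (L : ℝ) ^ (2 * l)) := mul_le_mul_of_nonneg_left h5 (by positivity)
  have h8 : (Z : ℝ) * ((k + 1) ^ 2 * (L : ℝ) ^ (2 * l)) ≤
      (k + 1) ^ 2 * (Z / (Real.log Z) ^ (2 * k + 2)) * (L : ℝ) ^ (2 * l + 1) := by
    have e1 : (Z : ℝ) = (Z / (Real.log Z) ^ (2 * k + 2)) * (Real.log Z) ^ (2 * k + 2) := by
      field_simp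
    calc (Z : ℝ) * ((k + 1) ^ 2 * (L : ℝ) ^ (2 * l)) =
        (Z / (Real.log Z) ^ (2 * k + 2)) * ((k + 1) ^ 2 * (L : ℝ) ^ (2 * l)) *
          (Real.log Z) ^ (2 * k + 2) := by
          conv_lhs => rw [e1]
          ring
      _ ≤ (Z / (Real.log Z) ^ (2 * k + 2)) * ((k + 1) ^ 2 * (L : ℝ) ^ (2 * l)) * L :=
          mul_le_mul_of_nonneg_left hLz (by positivity)
      _ = _ := by ring
  calc ((PR l L k Z s).card : ℝ) ≤ _ := h1
    _ ≤ 2 * (C1 * (Z / (Real.log Z) ^ (2 * k + 2)) * (C2 * (k + 1) ^ 2 * (L : ℝ) ^ (2 * l + 1)) +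
        (k + 1) ^ 2 * (Z / (Real.log Z) ^ (2 * k + 2)) * (L : ℝ) ^ (2 * l + 1)) := by
        linarith
    _ = _ := by ring

end Pool.Agent.Helper57.FP
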