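import Pool.Agent.Helper96.CPAP.Count

/-!
# An upper bound sieve for prime tuples with arbitrary shifts

`sieve_shift`: the number of `n < Z` such that all `n + y i` (`i : Fin r`, distinct shifts) are
prime is at most `C * (1 + sum of Psi over the differences) * Z / (log Z) ^ r`.
-/

set_option autoImplicit false

open Finset Real

namespace Pool.Agent.Helper57.FP

open Pool.Agent.Helper44 Pool.Agent.Helper96.CPAP

theorem one_le_prod_real {κ : Type*} (E : Finset κ) (z : κ → ℝ) (hz : ∀ e ∈ E, 1 ≤ z e) :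
    1 ≤ ∏ e ∈ E, z e := by
  classical
  induction E using Finset.induction_on with
  | empty => simp
  | insert a E ha ih =>
    rw [Finset.prod_insert ha]
    have h1 := hz a (Finset.mem_insert_self _ _)
    have h2 := ih (fun e he => hz e (Finset.mem_insert_of_mem he))
    nlinarith

theorem prod_le_prod_subset_real {κ : Type*} {E F : Finset κ} (h : E ⊆ F) (z : κ → ℝ)
    (hz : ∀ e ∈ F, 1 ≤ z e) : ∏ e ∈ E, z e ≤ ∏ e ∈ F, z e := by
  classical
  rw [← Finset.prod_sdiff h]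
  have h1 : 1 ≤ ∏ e ∈ F \ E, z e :=
    one_le_prod_real _ _ fun e he => hz e (Finset.mem_sdiff.mp he).1
  have h2 : 1 ≤ ∏ e ∈ E, z e := one_le_prod_real _ _ fun e he => hz e (h he)
  nlinarith

/-- The singular series type weight `∏_{q ∣ t} (1 + 1/q)^s` (for `t = 0` it is `1`). -/
noncomputable def Psi (s : ℕ) (t : ℤ) : ℝ := ∏ q ∈ t.natAbs.primeFactors, (1 + 1 / (q : ℝ)) ^ s

theorem one_le_Psi (s : ℕ) (t : ℤ) : 1 ≤ Psi s t := by
  unfold Psi
  apply one_le_prod_real
  intro q _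
  apply one_le_pow₀
  have : (0 : ℝ) ≤ 1 / (q : ℝ) := by positivity
  linarith

theorem Psi_pos (s : ℕ) (t : ℤ) : 0 < Psi s t := lt_of_lt_of_le one_pos (one_le_Psi s t)

theorem Psi_neg (s : ℕ) (t : ℤ) : Psi s (-t) = Psi s t := by
  unfold Psi
  rw [Int.natAbs_neg]

theorem Psi_pow (s m : ℕ) (t : ℤ) : Psi s t ^ m = Psi (s * m) t := by
  unfold Psi
  rw [← Finset.prod_pow]
  exact Finset.prod_congr rfl fun q _ => by rw [pow_mul]

theorem Psi_mono {s s' : ℕ} (h : s ≤ s') (t : ℤ) : Psi s t ≤ Psi s' t := by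
  unfold Psi
  apply Finset.prod_le_prod
  · intro q _; positivity
  · intro q _
    apply pow_le_pow_right₀ _ h
    have : (0 : ℝ) ≤ 1 / (q : ℝ) := by positivity
    linarith

section

variable {ι : Type*}

/-- number of residue classes killed by `q` -/
noncomputable def nu (y : ι → ℕ) (q : ℕ) : ℕ := by
  classical exact ((range q).filter (fun n => ∃ i, q ∣ n + y i)).card

theorem nu_eq (y : ι → ℕ) (q : ℕ) [DecidablePred (fun n : ℕ => ∃ i, q ∣ n + y i)] :
    nu y q = ((range q).filter (fun n => ∃ i, q ∣ n + y i)).card := by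
  unfold nu
  congr!

theorem key_mod {q n a : ℕ} (hn : n < q) (h : q ∣ n + a) : n = (q - a % q) % q := by
  have hq : 0 < q := by omega
  have h1 : n + a ≡ 0 [MOD q] := (Nat.modEq_zero_iff_dvd).mpr h
  have h2 : (q - a % q) + a ≡ 0 [MOD q] := by
    have h3 : a % q < q := Nat.mod_lt _ hq
    have h4 : (q - a % q) + a % q ≡ 0 [MOD q] := by
      rw [Nat.sub_add_cancel h3.le]
      exact (Nat.modEq_zero_iff_dvd).mpr dvd_rfl
    exact (Nat.ModEq.add_left _ (Nat.mod_modEq a q).symm).trans h4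
  have h3 : n ≡ (q - a % q) [MOD q] := Nat.ModEq.add_right_cancel' a (h1.trans h2.symm)
  have h4 : n % q = (q - a % q) % q := h3
  rwa [Nat.mod_eq_of_lt hn] at h4

theorem key_mod' {q a : ℕ} (hq : 0 < q) : q ∣ (q - a % q) % q + a := by
  have h3 : a % q < q := Nat.mod_lt _ hq
  have h4 : (q - a % q) + a % q ≡ 0 [MOD q] := by
    rw [Nat.sub_add_cancel h3.le]
    exact (Nat.modEq_zero_iff_dvd).mpr dvd_rfl
  rw [← Nat.modEq_zero_iff_dvd]
  exact ((Nat.mod_modEq (q - a % q) q).add_right a).trans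
    ((Nat.ModEq.add_left _ (Nat.mod_modEq a q).symm).trans h4)

theorem nu_le [Fintype ι] (y : ι → ℕ) (q : ℕ) : nu y q ≤ Fintype.card ι := by
  classical
  rw [nu_eq]
  have : (range q).filter (fun n => ∃ i, q ∣ n + y i) ⊆
      Finset.univ.image (fun i => (q - y i % q) % q) := by
    intro n hn
    rw [Finset.mem_filter, Finset.mem_range] at hn
    obtain ⟨hn, i, hi⟩ := hn
    rw [Finset.mem_image]
    exact ⟨i, Finset.mem_univ _, (key_mod hn hi).symm⟩
  exact (Finset.card_le_card this).trans Finset.card_image_le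

theorem nu_ge [Fintype ι] (y : ι → ℕ) {q : ℕ} (hq : 0 < q)
    (h : ∀ i j, i ≠ j → ¬ (q : ℤ) ∣ (y i : ℤ) - y j) : Fintype.card ι ≤ nu y q := by
  classical
  rw [nu_eq]
  have hinj : Function.Injective (fun i => (q - y i % q) % q) := by
    intro i j hij
    by_contra hne
    apply h i j hne
    have h1 := key_mod' (a := y i) hq
    have h2 := key_mod' (a := y j) hq
    simp only at hij
    rw [hij] at h1
    have h3 := (Int.natCast_dvd_natCast.mpr h1)
    have h4 := (Int.natCast_dvd_natCast.mpr h2)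
    have h5 := dvd_sub h3 h4
    push_cast at h5
    have h6 : ((((q - y j % q) % q : ℕ) : ℤ) + y i - (((q - y j % q) % q : ℕ) + y j)) =
        (y i : ℤ) - y j := by ring
    rw [← h6]
    push_cast
    exact h5
  calc Fintype.card ι = (Finset.univ.image (fun i => (q - y i % q) % q)).card := by
        rw [Finset.card_image_of_injective _ hinj, Finset.card_univ]
    _ ≤ _ := by
        apply Finset.card_le_card
        intro n hn
        rw [Finset.mem_image] at hn
        obtain ⟨i, _, rfl⟩ := hn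
        rw [Finset.mem_filter, Finset.mem_range]
        exact ⟨Nat.mod_lt _ hq, i, key_mod' hq⟩

theorem occ_iff_of_modEq {q : ℕ} (y : ι → ℕ) {n m : ℕ} (h : n ≡ m [MOD q]) :
    (∃ i, q ∣ n + y i) ↔ (∃ i, q ∣ m + y i) := by
  apply exists_congr
  intro i
  have h' : n + y i ≡ m + y i [MOD q] := h.add_right _
  exact ⟨fun h'' => (Nat.ModEq.dvd_iff h' dvd_rfl).mp h'', fun h'' => (Nat.ModEq.dvd_iff h' dvd_rfl).mpr h''⟩

theorem card_occ_prod' (y : ι → ℕ) (I : Finset ℕ) (hI : ∀ q ∈ I, q.Prime)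
    [DecidablePred (fun n : ℕ => ∀ q ∈ I, ∃ i, q ∣ n + y i)] :
    ((range (∏ q ∈ I, q)).filter (fun n => ∀ q ∈ I, ∃ i, q ∣ n + y i)).card =
      ∏ q ∈ I, nu y q := by
  classical
  have main : ∀ I : Finset ℕ, (∀ q ∈ I, q.Prime) →
      ((range (∏ q ∈ I, q)).filter (fun n => ∀ q ∈ I, ∃ i, q ∣ n + y i)).card =
      ∏ q ∈ I, nu y q := by
    intro I hI
    induction I using Finset.induction_on with
    | empty => simp
    | insert q I hqI ih =>
      have hq := hI q (Finset.mem_insert_self _ _)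
      have hI' : ∀ q ∈ I, q.Prime := fun q' hq' => hI q' (Finset.mem_insert_of_mem hq')
      have hco : Nat.Coprime q (∏ q ∈ I, q) := by
        apply Nat.Coprime.prod_right
        intro q' hq'
        exact (Nat.coprime_primes hq (hI' q' hq')).mpr (fun h => hqI (h ▸ hq'))
      have hpos : 0 < ∏ q ∈ I, q := Finset.prod_pos fun q' hq' => (hI' q' hq').pos
      rw [Finset.prod_insert hqI, Finset.prod_insert hqI, ← ih hI', nu_eq]
      rw [← card_crt hco hq.pos hpos]
      · congr 1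
        apply Finset.filter_congr
        intro n _
        rw [Finset.forall_mem_insert]
      · intro n
        exact occ_iff_of_modEq y (Nat.mod_modEq _ _)
      · intro n
        apply forall₂_congr
        intro q' hq'
        exact occ_iff_of_modEq y ((Nat.mod_modEq n _).of_dvd (Finset.dvd_prod_of_mem _ hq'))
  have h := main I hI
  convert h using 2
  ext n
  simp only [Finset.mem_filter]

theorem count_bound' [Fintype ι] (y : ι → ℕ) (I : Finset ℕ) (hI : ∀ q ∈ I, q.Prime) (N : ℕ) :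
    |evCount (range N) (fun n => ∀ q ∈ I, ∃ i, q ∣ n + y i) -
      (N : ℝ) * ∏ q ∈ I, ((nu y q : ℝ) / q)| ≤ 1 * ((Fintype.card ι : ℝ) + 1) ^ I.card := by
  classical
  have hpos : 0 < ∏ q ∈ I, q := Finset.prod_pos fun q' hq' => (hI q' hq').pos
  have hper : ∀ n, (∀ q ∈ I, ∃ i, q ∣ (n + ∏ q ∈ I, q) + y i) ↔
      (∀ q ∈ I, ∃ i, q ∣ n + y i) := by
    intro n
    apply forall₂_congr
    intro q' hq'
    apply occ_iff_of_modEq
    have h1 : ∏ q ∈ I, q ≡ 0 [MOD q'] :=
      (Nat.modEq_zero_iff_dvd).mpr (Finset.dvd_prod_of_mem _ hq')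
    simpa using h1.add_left n
  have h1 := count_periodic_bound (p := fun n => ∀ q ∈ I, ∃ i, q ∣ n + y i) hpos hper N
  rw [Nat.count_eq_card_filter_range, Nat.count_eq_card_filter_range, card_occ_prod' y I hI] at h1
  rw [evCount_eq, Finset.prod_div_distrib]
  push_cast at h1
  refine h1.trans ?_
  rw [one_mul]
  calc ∏ q ∈ I, (nu y q : ℝ) ≤ ∏ _q ∈ I, ((Fintype.card ι : ℝ) + 1) := by
        apply Finset.prod_le_prod
        · intro q _; positivity
        · intro q _
          have : (nu y q : ℝ) ≤ Fintype.card ι := by exact_mod_cast nu_le y q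
          linarith
    _ = _ := by rw [Finset.prod_const]

end

/-- The sieving primes. -/
def PP (r : ℕ) (q : ℕ) : Prop := q.Prime ∧ 2 * r ≤ q

theorem prod_main_le (r : ℕ) : ∃ C : ℝ, 0 < C ∧ ∀ w : ℝ, 2 ≤ w →
    ∏ q ∈ pU (PP r) w, (1 - (r : ℝ) / q) ≤ C / (Real.log w) ^ r := by
  classical
  obtain ⟨C, hC, hM⟩ := sum_primesUpTo_bounds
  refine ⟨Real.exp (r * (C + 2 * r)), Real.exp_pos _, ?_⟩
  intro w hw
  have hP' : ∀ q, PP r q → q.Prime := fun q h => h.1
  have hw0 : 0 ≤ w := by linarith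
  have hlw : 0 < Real.log w := Real.log_pos (by linarith)
  have hsub : ∑ q ∈ primesUpTo w, (1 : ℝ) / q - 2 * r ≤ ∑ q ∈ pU (PP r) w, (1 : ℝ) / q := by
    have h1 : primesUpTo w ⊆ pU (PP r) w ∪ (range (2 * r)).filter (fun q => 1 ≤ q) := by
      intro q hq
      rw [mem_primesUpTo hw0] at hq
      rw [Finset.mem_union, mem_pU hP' hw0, Finset.mem_filter, Finset.mem_range]
      by_cases h : 2 * r ≤ q
      · left; exact ⟨⟨hq.1, h⟩, hq.2⟩
      · right; exact ⟨by omega, hq.1.one_lt.le⟩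
    have h2 : ∑ q ∈ primesUpTo w, (1 : ℝ) / q ≤ ∑ q ∈ pU (PP r) w, (1 : ℝ) / q +
        ∑ q ∈ (range (2 * r)).filter (fun q => 1 ≤ q), (1 : ℝ) / q := by
      calc _ ≤ ∑ q ∈ pU (PP r) w ∪ (range (2 * r)).filter (fun q => 1 ≤ q), (1 : ℝ) / q :=
            Finset.sum_le_sum_of_subset_of_nonneg h1 (fun q _ _ => by positivity)
        _ ≤ _ := by
            have := Finset.sum_union_inter (s₁ := pU (PP r) w)
              (s₂ := (range (2 * r)).filter (fun q => 1 ≤ q)) (f := fun q : ℕ => (1 : ℝ) / q)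
            have h3 : 0 ≤ ∑ q ∈ pU (PP r) w ∩ (range (2 * r)).filter (fun q => 1 ≤ q), (1 : ℝ) / q :=
              Finset.sum_nonneg fun q _ => by positivity
            linarith
    have h3 : ∑ q ∈ (range (2 * r)).filter (fun q => 1 ≤ q), (1 : ℝ) / q ≤ 2 * r := by
      calc _ ≤ ∑ _q ∈ (range (2 * r)).filter (fun q => 1 ≤ q), (1 : ℝ) := by
            apply Finset.sum_le_sum
            intro q hq
            rw [Finset.mem_filter] at hq
            have : (1 : ℝ) ≤ q := by exact_mod_cast hq.2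
            rw [div_le_one (by linarith)]
            exact this
        _ = (((range (2 * r)).filter (fun q => 1 ≤ q)).card : ℝ) := by simp
        _ ≤ 2 * r := by
            have := Finset.card_filter_le (range (2 * r)) (fun q => 1 ≤ q)
            rw [Finset.card_range] at this
            exact_mod_cast this
    linarith
  calc ∏ q ∈ pU (PP r) w, (1 - (r : ℝ) / q) ≤ ∏ q ∈ pU (PP r) w, Real.exp (-(r * (1 / (q : ℝ)))) := by
        apply Finset.prod_le_prod
        · intro q hq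
          rw [mem_pU hP' hw0] at hq
          have hq0 : (0 : ℝ) < q := by exact_mod_cast hq.1.1.pos
          have h3 : (2 : ℝ) * r ≤ q := by exact_mod_cast hq.1.2
          have hr : (0 : ℝ) ≤ r := by positivity
          have : (r : ℝ) / q ≤ 1 := by
            rw [div_le_one hq0]; linarith
          linarith
        · intro q _
          have := Real.add_one_le_exp (-(r * (1 / (q : ℝ))))
          rw [mul_one_div] at this ⊢
          linarith
    _ = Real.exp (-(r * ∑ q ∈ pU (PP r) w, (1 : ℝ) / q)) := by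
        rw [← Real.exp_sum, Finset.sum_neg_distrib, ← Finset.mul_sum]
    _ ≤ Real.exp (r * (C + 2 * r) - r * Real.log (Real.log w)) := by
        apply Real.exp_le_exp.mpr
        have h1 := (abs_le.mp (hM w hw)).1
        have h2 : Real.log (Real.log w) - C - 2 * r ≤ ∑ q ∈ pU (PP r) w, (1 : ℝ) / q := by linarith
        have h3 := mul_le_mul_of_nonneg_left h2 (by positivity : (0 : ℝ) ≤ r)
        nlinarith
    _ = Real.exp (r * (C + 2 * r)) / (Real.log w) ^ r := by
        have h5 : Real.exp (r * Real.log (Real.log w)) = (Real.log w) ^ r := by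
          rw [Real.exp_nat_mul, Real.exp_log hlw]
        rw [Real.exp_sub, h5]

theorem prod_le_one_add_sum_pow {κ : Type*} (E : Finset κ) (z : κ → ℝ) (hz : ∀ e, 1 ≤ z e)
    (m : ℕ) (hm : E.card ≤ m) : ∏ e ∈ E, z e ≤ 1 + ∑ e ∈ E, z e ^ m := by
  rcases E.eq_empty_or_nonempty with rfl | hne
  · simp
  · obtain ⟨e, he, hmax⟩ := Finset.exists_max_image E z hne
    have h0 : ∀ e, 0 ≤ z e := fun e => by linarith [hz e]
    calc ∏ e' ∈ E, z e' ≤ ∏ _e' ∈ E, z e := Finset.prod_le_prod (fun e _ => h0 e) hmax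
      _ = z e ^ E.card := by rw [Finset.prod_const]
      _ ≤ z e ^ m := pow_le_pow_right₀ (hz e) hm
      _ ≤ ∑ e ∈ E, z e ^ m :=
          Finset.single_le_sum (f := fun e => z e ^ m) (fun e _ => pow_nonneg (h0 e) _) he
      _ ≤ 1 + ∑ e ∈ E, z e ^ m := by linarith

theorem prod_nu_le (ι : Type) [Fintype ι] (r : ℕ) (hr : Fintype.card ι = r) :
    ∃ C : ℝ, 0 < C ∧ ∀ w : ℝ, 2 ≤ w → ∀ y : ι → ℕ,
    Function.Injective y →
    ∏ q ∈ pU (PP r) w, (1 - (nu y q : ℝ) / q) ≤
      C * (1 + ∑ i, ∑ j, Psi (2 * r * (r * r)) ((y i : ℤ) - y j)) / (Real.log w) ^ r := by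
  classical
  obtain ⟨C, hC, hmain⟩ := prod_main_le r
  refine ⟨C, hC, ?_⟩
  intro w hw y hy
  have hP' : ∀ q, PP r q → q.Prime := fun q h => h.1
  have hw0 : 0 ≤ w := by linarith
  have hlw : 0 < Real.log w := Real.log_pos (by linarith)
  set bad : ℕ → Prop := fun q => ∃ i j, i ≠ j ∧ (q : ℤ) ∣ (y i : ℤ) - y j with hbad
  have hq : ∀ q ∈ pU (PP r) w, 0 < (q : ℝ) ∧ (r : ℝ) / q ≤ 1 / 2 ∧ q.Prime := by
    intro q hq
    rw [mem_pU hP' hw0] at hq
    have hq0 : (0 : ℝ) < q := by exact_mod_cast hq.1.1.pos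
    have h3 : (2 : ℝ) * r ≤ q := by exact_mod_cast hq.1.2
    refine ⟨hq0, ?_, hq.1.1⟩
    rw [div_le_iff₀ hq0]; linarith
  have h1 : ∏ q ∈ pU (PP r) w, (1 - (nu y q : ℝ) / q) ≤
      ∏ q ∈ pU (PP r) w, ((1 - (r : ℝ) / q) * (if bad q then (1 + 1 / (q : ℝ)) ^ (2 * r) else 1)) := by
    apply Finset.prod_le_prod
    · intro q hq'
      obtain ⟨hq0, hq1, _⟩ := hq q hq'
      have h2 : (nu y q : ℝ) ≤ r := by
        have := nu_le y q
        rw [hr] at this
        exact_mod_cast this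
      have : (nu y q : ℝ) / q ≤ (r : ℝ) / q := div_le_div_of_nonneg_right h2 hq0.le
      linarith
    · intro q hq'
      obtain ⟨hq0, hq1, hqp⟩ := hq q hq'
      have hr0 : 0 ≤ (r : ℝ) / q := by positivity
      split_ifs with hb
      · have h3 : 0 ≤ (nu y q : ℝ) / q := by positivity
        have h4 : 1 + (2 * r : ℕ) * (1 / (q : ℝ)) ≤ (1 + 1 / (q : ℝ)) ^ (2 * r) := by
          apply one_add_mul_le_pow
          have : (0 : ℝ) ≤ 1 / q := by positivity
          linarith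
        have h5 : 1 + 2 * ((r : ℝ) / q) ≤ (1 + 1 / (q : ℝ)) ^ (2 * r) := by
          refine le_trans (le_of_eq ?_) h4
          push_cast
          ring
        have h6 : (1 : ℝ) ≤ (1 - (r : ℝ) / q) * (1 + 2 * ((r : ℝ) / q)) := by nlinarith
        have h7 : (1 - (r : ℝ) / q) * (1 + 2 * ((r : ℝ) / q)) ≤
            (1 - (r : ℝ) / q) * (1 + 1 / (q : ℝ)) ^ (2 * r) :=
          mul_le_mul_of_nonneg_left h5 (by linarith)
        linarith
      · have h3 : r ≤ nu y q := by
          have := nu_ge y hqp.pos (by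
            intro i j hij hd
            exact hb ⟨i, j, hij, hd⟩)
          rwa [hr] at this
        have h4 : (r : ℝ) / q ≤ (nu y q : ℝ) / q :=
          div_le_div_of_nonneg_right (by exact_mod_cast h3) hq0.le
        rw [mul_one]
        linarith
  rw [Finset.prod_mul_distrib] at h1
  set E : Finset (ι × ι) := Finset.univ.filter (fun e => e.1 ≠ e.2) with hE
  have hEc : E.card ≤ r * r := by
    refine (Finset.card_filter_le _ _).trans ?_
    rw [Finset.card_univ, Fintype.card_prod, hr]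
  have h2 : ∏ q ∈ pU (PP r) w, (if bad q then (1 + 1 / (q : ℝ)) ^ (2 * r) else 1) ≤
      ∏ e ∈ E, Psi (2 * r) ((y e.1 : ℤ) - y e.2) := by
    rw [← Finset.prod_filter]
    have hone : ∀ q : ℕ, (1 : ℝ) ≤ (1 + 1 / (q : ℝ)) ^ (2 * r) := by
      intro q
      apply one_le_pow₀
      have : (0 : ℝ) ≤ 1 / (q : ℝ) := by positivity
      linarith
    have hsub : (pU (PP r) w).filter bad ⊆
        E.biUnion (fun e => ((y e.1 : ℤ) - y e.2).natAbs.primeFactors) := by
      intro q hq'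
      rw [Finset.mem_filter] at hq'
      obtain ⟨hq1, i, j, hij, hd⟩ := hq'
      rw [Finset.mem_biUnion]
      refine ⟨(i, j), by rw [hE, Finset.mem_filter]; exact ⟨Finset.mem_univ _, hij⟩, ?_⟩
      rw [Nat.mem_primeFactors]
      refine ⟨(hq q hq1).2.2, ?_, ?_⟩
      · exact Int.natCast_dvd.mp hd
      · rw [Int.natAbs_ne_zero, sub_ne_zero]
        intro h
        exact hij (hy (by exact_mod_cast h))
    calc ∏ q ∈ (pU (PP r) w).filter bad, (1 + 1 / (q : ℝ)) ^ (2 * r)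
        ≤ ∏ q ∈ E.biUnion (fun e => ((y e.1 : ℤ) - y e.2).natAbs.primeFactors),
            (1 + 1 / (q : ℝ)) ^ (2 * r) := by
          apply prod_le_prod_subset_real hsub
          intro q _
          exact hone q
      _ ≤ ∏ e ∈ E, ∏ q ∈ ((y e.1 : ℤ) - y e.2).natAbs.primeFactors,
            (1 + 1 / (q : ℝ)) ^ (2 * r) := by
          clear_value E
          clear hsub hEc hE
          induction E using Finset.induction_on with
          | empty => simp
          | insert e E he ih =>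
            rw [Finset.biUnion_insert, Finset.prod_insert he]
            have h3 := Finset.prod_union_inter
              (s₁ := ((y e.1 : ℤ) - y e.2).natAbs.primeFactors)
              (s₂ := E.biUnion (fun e => ((y e.1 : ℤ) - y e.2).natAbs.primeFactors))
              (f := fun q : ℕ => (1 + 1 / (q : ℝ)) ^ (2 * r))
            have h4 : (1 : ℝ) ≤ ∏ q ∈ ((y e.1 : ℤ) - y e.2).natAbs.primeFactors ∩
                E.biUnion (fun e => ((y e.1 : ℤ) - y e.2).natAbs.primeFactors),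
                (1 + 1 / (q : ℝ)) ^ (2 * r) := one_le_prod_real _ _ fun q _ => hone q
            have h5 : (0 : ℝ) ≤ ∏ q ∈ ((y e.1 : ℤ) - y e.2).natAbs.primeFactors ∪
                E.biUnion (fun e => ((y e.1 : ℤ) - y e.2).natAbs.primeFactors),
                (1 + 1 / (q : ℝ)) ^ (2 * r) :=
              Finset.prod_nonneg fun q _ => by linarith [hone q]
            have h6 : (0 : ℝ) ≤ ∏ q ∈ ((y e.1 : ℤ) - y e.2).natAbs.primeFactors,
                (1 + 1 / (q : ℝ)) ^ (2 * r) :=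
              Finset.prod_nonneg fun q _ => by linarith [hone q]
            calc _ ≤ (∏ q ∈ ((y e.1 : ℤ) - y e.2).natAbs.primeFactors ∪
                E.biUnion (fun e => ((y e.1 : ℤ) - y e.2).natAbs.primeFactors),
                (1 + 1 / (q : ℝ)) ^ (2 * r)) *
                ∏ q ∈ ((y e.1 : ℤ) - y e.2).natAbs.primeFactors ∩
                E.biUnion (fun e => ((y e.1 : ℤ) - y e.2).natAbs.primeFactors),
                (1 + 1 / (q : ℝ)) ^ (2 * r) := le_mul_of_one_le_right h5 h4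
              _ = _ := h3
              _ ≤ _ := mul_le_mul_of_nonneg_left ih h6
      _ = _ := rfl
  have h3 : ∏ e ∈ E, Psi (2 * r) ((y e.1 : ℤ) - y e.2) ≤
      1 + ∑ i, ∑ j, Psi (2 * r * (r * r)) ((y i : ℤ) - y j) := by
    refine (prod_le_one_add_sum_pow E _ (fun e => one_le_Psi _ _) (r * r) hEc).trans ?_
    gcongr
    calc ∑ e ∈ E, Psi (2 * r) ((y e.1 : ℤ) - y e.2) ^ (r * r)
        = ∑ e ∈ E, Psi (2 * r * (r * r)) ((y e.1 : ℤ) - y e.2) :=
          Finset.sum_congr rfl fun e _ => Psi_pow _ _ _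
      _ ≤ ∑ e : ι × ι, Psi (2 * r * (r * r)) ((y e.1 : ℤ) - y e.2) :=
          Finset.sum_le_sum_of_subset_of_nonneg (Finset.subset_univ _)
            (fun e _ _ => (Psi_pos _ _).le)
      _ = _ := by rw [Fintype.sum_prod_type]
  have h4 : 0 ≤ ∏ q ∈ pU (PP r) w, (1 - (r : ℝ) / q) := by
    apply Finset.prod_nonneg
    intro q hq'
    linarith [(hq q hq').2.1]
  have h5 : 0 ≤ ∏ e ∈ E, Psi (2 * r) ((y e.1 : ℤ) - y e.2) :=
    Finset.prod_nonneg fun e _ => (Psi_pos _ _).le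
  calc ∏ q ∈ pU (PP r) w, (1 - (nu y q : ℝ) / q) ≤ _ := h1
    _ ≤ (∏ q ∈ pU (PP r) w, (1 - (r : ℝ) / q)) *
        (1 + ∑ i, ∑ j, Psi (2 * r * (r * r)) ((y i : ℤ) - y j)) :=
        mul_le_mul_of_nonneg_left (h2.trans h3) h4
    _ ≤ (C / (Real.log w) ^ r) * (1 + ∑ i, ∑ j, Psi (2 * r * (r * r)) ((y i : ℤ) - y j)) :=
        mul_le_mul_of_nonneg_right (hmain w hw) (by linarith)
    _ = _ := by ring

theorem eventually_small (r : ℕ) : ∀ᶠ Z : ℕ in Filter.atTop,
    3 * (Z : ℝ) ^ (1 / 2 : ℝ) ≤ Z / (Real.log Z) ^ r := by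
  have h1 : (fun x : ℝ => Real.log x ^ r) =o[Filter.atTop] fun x : ℝ => x ^ (1 / 2 : ℝ) := by
    have := isLittleO_log_rpow_rpow_atTop (s := 1 / 2) (r : ℝ) (by norm_num)
    simpa [Real.rpow_natCast] using this
  have h2 : ∀ᶠ x : ℝ in Filter.atTop, ‖Real.log x ^ r‖ ≤ (1 / 3) * ‖x ^ (1 / 2 : ℝ)‖ :=
    h1.bound (by norm_num)
  have h3 : ∀ᶠ Z : ℕ in Filter.atTop, ‖Real.log (Z : ℝ) ^ r‖ ≤ (1 / 3) * ‖(Z : ℝ) ^ (1 / 2 : ℝ)‖ :=
    tendsto_natCast_atTop_atTop.eventually h2
  filter_upwards [h3, Filter.eventually_ge_atTop 2] with Z hZ hZ2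
  have hZ1 : (1 : ℝ) < Z := by exact_mod_cast hZ2
  have hlog : 0 < Real.log Z := Real.log_pos hZ1
  have hpos : 0 < (Z : ℝ) ^ (1 / 2 : ℝ) := Real.rpow_pos_of_pos (by linarith) _
  rw [Real.norm_of_nonneg (by positivity), Real.norm_of_nonneg hpos.le] at hZ
  rw [le_div_iff₀ (by positivity)]
  have h4 : (Z : ℝ) ^ (1 / 2 : ℝ) * (Z : ℝ) ^ (1 / 2 : ℝ) = Z := by
    rw [← Real.rpow_add (by linarith)]; norm_num
  calc 3 * (Z : ℝ) ^ (1 / 2 : ℝ) * Real.log Z ^ r
      ≤ 3 * (Z : ℝ) ^ (1 / 2 : ℝ) * ((1 / 3) * (Z : ℝ) ^ (1 / 2 : ℝ)) := by gcongr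
    _ = (Z : ℝ) ^ (1 / 2 : ℝ) * (Z : ℝ) ^ (1 / 2 : ℝ) := by ring
    _ = Z := h4

/-- Upper bound sieve for prime tuples with arbitrary distinct shifts. -/
theorem sieve_shift (ι : Type) [Fintype ι] (r : ℕ) (hr : Fintype.card ι = r) :
    ∃ C : ℝ, 0 < C ∧ ∃ Z0 : ℕ, ∀ Z : ℕ, Z0 ≤ Z → ∀ y : ι → ℕ,
    Function.Injective y →
    (((range Z).filter (fun n => ∀ i, (n + y i).Prime)).card : ℝ) ≤
      C * (1 + ∑ i, ∑ j, Psi (2 * r * (r * r)) ((y i : ℤ) - y j)) * (Z / (Real.log Z) ^ r) := by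
  classical
  obtain ⟨K, c, hK, hc, hS⟩ := sieveK r
  obtain ⟨C, hC, hprod⟩ := prod_nu_le ι r hr
  obtain ⟨Z1, hZ1⟩ := Filter.eventually_atTop.mp (eventually_small r)
  obtain ⟨Z2, hZ2⟩ : ∃ Z2 : ℕ, ∀ Z : ℕ, Z2 ≤ Z → (2 : ℝ) ≤ (Z : ℝ) ^ (1 / (2 * K)) := by
    have h := (tendsto_rpow_atTop (y := 1 / (2 * K)) (by positivity)).comp
      (tendsto_natCast_atTop_atTop (R := ℝ))
    obtain ⟨Z2, h2⟩ := Filter.eventually_atTop.mp (h.eventually (Filter.eventually_ge_atTop 2))
    exact ⟨Z2, h2⟩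
  refine ⟨2 * C * (2 * K) ^ r + 1, by positivity, max (max Z1 Z2) 2, ?_⟩
  intro Z hZ y hy
  have hZ1' := hZ1 Z ((le_max_left _ _).trans ((le_max_left _ _).trans hZ))
  have hZ2' := hZ2 Z ((le_max_right _ _).trans ((le_max_left _ _).trans hZ))
  have hZ3 : 2 ≤ Z := (le_max_right _ _).trans hZ
  have hZr : (1 : ℝ) < Z := by exact_mod_cast hZ3
  have hZ0 : (0 : ℝ) < Z := by linarith
  have hlog : 0 < Real.log Z := Real.log_pos hZr
  set w : ℝ := (Z : ℝ) ^ (1 / (2 * K)) with hw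
  have hw0 : 0 < w := by linarith
  have hlogw : Real.log w = Real.log Z / (2 * K) := by
    rw [hw, Real.log_rpow hZ0]; ring
  have hwK : w ^ K = (Z : ℝ) ^ (1 / 2 : ℝ) := by
    rw [hw, ← Real.rpow_mul hZ0.le]
    congr 1
    field_simp
  have hwle : w ≤ (Z : ℝ) ^ (1 / 2 : ℝ) := by
    rw [hw]
    apply Real.rpow_le_rpow_of_exponent_le hZr.le
    apply one_div_le_one_div_of_le (by norm_num)
    linarith
  have hone : (1 : ℝ) ≤ (Z : ℝ) ^ (1 / 2 : ℝ) := Real.one_le_rpow hZr.le (by norm_num)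
  -- sieve bound
  have h1 := (hS ℕ (PP r) (fun q h => h) (fun q => (nu y q : ℝ)) (fun q _ => by
      refine ⟨by positivity, ?_⟩
      have := nu_le y q
      rw [hr] at this
      exact_mod_cast this) w hZ2' (range Z) (fun q n => ∃ i, q ∣ n + y i) Z 1 hZ0.le zero_le_one
      (fun I hI => by
        have := count_bound' y I (fun q hq => (hI q hq).1.1) Z
        rwa [hr] at this)).1
  rw [hwK, one_mul] at h1
  -- cover
  have h2 : (((range Z).filter (fun n => ∀ i, (n + y i).Prime)).card : ℝ) ≤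
      evCount (range Z) (fun n => ∀ q : ℕ, PP r q → (q : ℝ) ≤ w → ¬ ∃ i, q ∣ n + y i) +
        (w + 1) := by
    rw [evCount_eq]
    have hsub : (range Z).filter (fun n => ∀ i, (n + y i).Prime) ⊆
        (range Z).filter (fun n => ∀ q : ℕ, PP r q → (q : ℝ) ≤ w → ¬ ∃ i, q ∣ n + y i) ∪
          range (⌊w⌋₊ + 1) := by
      intro n hn
      rw [Finset.mem_filter] at hn
      rw [Finset.mem_union, Finset.mem_filter, Finset.mem_range]
      by_cases h : n < ⌊w⌋₊ + 1
      · right; exact Finset.mem_range.mpr h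
      · left
        refine ⟨Finset.mem_range.mp hn.1, ?_⟩
        rintro q hq hqw ⟨i, hi⟩
        have h3 : q = n + y i := (Nat.prime_dvd_prime_iff_eq hq.1 (hn.2 i)).mp hi
        have h4 : q ≤ ⌊w⌋₊ := Nat.le_floor hqw
        omega
    have h3 := Finset.card_le_card hsub
    have h4 := h3.trans (Finset.card_union_le _ _)
    rw [Finset.card_range] at h4
    have h5 : ((⌊w⌋₊ + 1 : ℕ) : ℝ) ≤ w + 1 := by
      push_cast
      linarith [Nat.floor_le hw0.le]
    calc _ ≤ ((((range Z).filter (fun n => ∀ q : ℕ, PP r q → (q : ℝ) ≤ w →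
              ¬ ∃ i, q ∣ n + y i)).card + (⌊w⌋₊ + 1) : ℕ) : ℝ) := by exact_mod_cast h4
      _ ≤ _ := by
          push_cast
          push_cast at h5
          linarith
  have h3 := hprod w hZ2' y hy
  have hPsi : 0 ≤ ∑ i, ∑ j, Psi (2 * r * (r * r)) ((y i : ℤ) - y j) :=
    Finset.sum_nonneg fun i _ => Finset.sum_nonneg fun j _ => (Psi_pos _ _).le
  set T := ∑ i, ∑ j, Psi (2 * r * (r * r)) ((y i : ℤ) - y j) with hT
  have h4 : C * (1 + T) / (Real.log w) ^ r = C * (2 * K) ^ r * (1 + T) / (Real.log Z) ^ r := by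
    rw [hlogw, div_pow]
    field_simp
  rw [h4] at h3
  have h5 : 2 * (Z : ℝ) * ∏ q ∈ pU (PP r) w, (1 - (nu y q : ℝ) / q) ≤
      2 * Z * (C * (2 * K) ^ r * (1 + T) / (Real.log Z) ^ r) :=
    mul_le_mul_of_nonneg_left h3 (by positivity)
  have h6 : (0 : ℝ) ≤ Z / (Real.log Z) ^ r := by positivity
  have h7 : (0 : ℝ) ≤ T * (Z / (Real.log Z) ^ r) := mul_nonneg hPsi h6
  calc _ ≤ _ := h2
    _ ≤ (2 * Z * (C * (2 * K) ^ r * (1 + T) / (Real.log Z) ^ r) + (Z : ℝ) ^ (1 / 2 : ℝ)) +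
        (w + 1) := by linarith
    _ ≤ 2 * Z * (C * (2 * K) ^ r * (1 + T) / (Real.log Z) ^ r) + 3 * (Z : ℝ) ^ (1 / 2 : ℝ) := by
        linarith
    _ ≤ 2 * Z * (C * (2 * K) ^ r * (1 + T) / (Real.log Z) ^ r) + Z / (Real.log Z) ^ r := by
        linarith
    _ = 2 * C * (2 * K) ^ r * (1 + T) * (Z / (Real.log Z) ^ r) + Z / (Real.log Z) ^ r := by ring
    _ ≤ (2 * C * (2 * K) ^ r + 1) * (1 + T) * (Z / (Real.log Z) ^ r) := by nlinarith

end Pool.Agent.Helper57.FP

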