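import Pool.Agent.Helper57.FP.PsiAvg

/-!
# The tree of shifts
-/

set_option autoImplicit false

open Finset Real

namespace Pool.Agent.Helper57.FP

/-- The shifts: `X 0 = 0`, `X (i+1) = s i (X i) + u i`. -/
def X {l L : ℕ} (s : ℕ → ℕ → ℕ) (u : Fin l → Fin L) : ℕ → ℕ
  | 0 => 0
  | i + 1 => s i (X s u i) + (if h : i < l then (u ⟨i, h⟩ : ℕ) else 0)

theorem X_zero {l L : ℕ} (s : ℕ → ℕ → ℕ) (u : Fin l → Fin L) : X s u 0 = 0 := rfl

theorem X_succ {l L : ℕ} (s : ℕ → ℕ → ℕ) (u : Fin l → Fin L) {i : ℕ} (h : i < l) :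
    X s u (i + 1) = s i (X s u i) + (u ⟨i, h⟩ : ℕ) := by
  simp [X, h]

theorem X_strictMono {l L : ℕ} {s : ℕ → ℕ → ℕ} (hs : ∀ i x, x < s i x) (u : Fin l → Fin L) :
    StrictMono (X s u) := by
  apply strictMono_nat_of_lt_succ
  intro i
  have : s i (X s u i) ≤ X s u (i + 1) := by
    show s i (X s u i) ≤ s i (X s u i) + _
    exact Nat.le_add_right _ _
  exact (hs _ _).trans_le this

theorem X_update {l L : ℕ} (s : ℕ → ℕ → ℕ) (u : Fin l → Fin L) (k : Fin l) (v : Fin L) :
    ∀ i : ℕ, i ≤ k → X s (Function.update u k v) i = X s u i := by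
  intro i
  induction i with
  | zero => intro _; rfl
  | succ i ih =>
    intro hi
    have hil : i < l := by have := k.2; omega
    rw [X_succ s _ hil, X_succ s _ hil, ih (by omega)]
    congr 2
    rw [Function.update_of_ne]
    intro h
    have : i = (k : ℕ) := by rw [← h]
    omega

theorem X_update_succ {l L : ℕ} (s : ℕ → ℕ → ℕ) (u : Fin l → Fin L) (k : Fin l) (v : Fin L) :
    X s (Function.update u k v) (k + 1) = s k (X s u k) + (v : ℕ) := by
  rw [X_succ s _ k.2, X_update s u k v k le_rfl]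
  simp

/-- Averaging over one coordinate. -/
theorem sum_update {l L : ℕ} (k : Fin l) (F : (Fin l → Fin L) → ℝ) :
    ∑ u, ∑ v : Fin L, F (Function.update u k v) = L * ∑ u, F u := by
  classical
  have h1 : ∑ u, ∑ v : Fin L, F (Function.update u k v) =
      ∑ e : (Fin l → Fin L) × Fin L, F (Function.update e.1 k e.2) := by
    rw [Fintype.sum_prod_type]
  have h2 : ∑ e : (Fin l → Fin L) × Fin L, F (Function.update e.1 k e.2) =
      ∑ e : (Fin l → Fin L) × Fin L, F e.1 := by
    apply Finset.sum_nbij' (i := fun e => (Function.update e.1 k e.2, e.1 k))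
      (j := fun e => (Function.update e.1 k e.2, e.1 k))
    · intro e _; exact Finset.mem_univ _
    · intro e _; exact Finset.mem_univ _
    · intro e _
      simp
    · intro e _
      simp
    · intro e _
      rfl
  rw [h1, h2, Fintype.sum_prod_type]
  simp only [Finset.sum_const, Finset.card_univ, Fintype.card_fin, nsmul_eq_mul]
  rw [Finset.mul_sum]

theorem sum_le_of_update {l L : ℕ} (hL : 1 ≤ L) (k : Fin l) (F : (Fin l → Fin L) → ℝ) (C : ℝ)
    (h : ∀ u, ∑ v : Fin L, F (Function.update u k v) ≤ C * L) :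
    ∑ u, F u ≤ C * (L : ℝ) ^ l := by
  have hL0 : (0 : ℝ) < L := by exact_mod_cast hL
  have h1 := sum_update k F
  have h2 : ∑ u : Fin l → Fin L, ∑ v : Fin L, F (Function.update u k v) ≤
      ∑ _u : Fin l → Fin L, C * L := Finset.sum_le_sum fun u _ => h u
  rw [h1, Finset.sum_const, Finset.card_univ, Fintype.card_fun, Fintype.card_fin,
    Fintype.card_fin, nsmul_eq_mul] at h2
  push_cast at h2
  have h3 : (L : ℝ) * ∑ u, F u ≤ L * (C * (L : ℝ) ^ l) := by
    calc _ ≤ _ := h2
      _ = _ := by ring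
  exact le_of_mul_le_mul_left h3 hL0

end Pool.Agent.Helper57.FP
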