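import Pool.Agent.Helper57.FP.Induct

/-!
# The tree theorem
-/

set_option autoImplicit false

open Finset Real

namespace Pool.Agent.Helper57.FP

theorem exists_pos_le (l : ℕ) (f : ℕ → ℝ) (hf : ∀ k, 0 < f k) : ∃ ε : ℝ, 0 < ε ∧ ∀ k < l, ε ≤ f k := by
  induction l with
  | zero => exact ⟨1, one_pos, fun k hk => absurd hk (Nat.not_lt_zero k)⟩
  | succ l ih =>
    obtain ⟨ε, hε, h⟩ := ih
    refine ⟨min ε (f l), lt_min hε (hf l), fun k hk => ?_⟩
    rcases Nat.lt_succ_iff_lt_or_eq.mp hk with h' | rfl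
    · exact (min_le_left _ _).trans (h k h')
    · exact min_le_right _ _

theorem exists_nat_ge (l : ℕ) (f : ℕ → ℕ) : ∃ m : ℕ, ∀ k < l, f k ≤ m := by
  induction l with
  | zero => exact ⟨0, fun k hk => absurd hk (Nat.not_lt_zero k)⟩
  | succ l ih =>
    obtain ⟨m, h⟩ := ih
    refine ⟨max m (f l), fun k hk => ?_⟩
    rcases Nat.lt_succ_iff_lt_or_eq.mp hk with h' | rfl
    · exact (h k h').trans (le_max_left _ _)
    · exact le_max_right _ _

/-- **Tree theorem.** -/
theorem tree_main (δ : ℝ) (hδ : 0 < δ) (l c : ℕ) (hc : 1 ≤ c) :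
    ∃ z0 : ℕ, ∀ z : ℕ, z0 ≤ z → ∀ A : Finset ℕ, (∀ p ∈ A, p.Prime ∧ p < 2 ^ z) →
    δ * ((2 : ℝ) ^ z / Real.log ((2 : ℝ) ^ z)) ≤ A.card →
    ∃ β : ℕ, z ≤ 2 ^ β ∧ ∀ s : ℕ → ℕ → ℕ, (∀ i x, x < s i x) →
      (∀ i < l, ∀ u : Fin l → Fin ((2 ^ β) ^ 2), s i (X s u i) + (2 ^ β) ^ 2 ≤ 2 ^ (c * β)) →
      ∃ (p : ℕ) (u : Fin l → Fin ((2 ^ β) ^ 2)), ∀ i ≤ l, p + X s u i ∈ A := by
  classical
  choose C hC Z0 hP using pair_bound
  set τ : ℕ → ℝ := fun k => δ / 4 * (δ / 16) ^ k with hτ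
  have hτ0 : ∀ k, 0 < τ k := fun k => by simp only [hτ]; positivity
  obtain ⟨ε, hε, hεle⟩ := exists_pos_le l (fun k => τ k ^ 2 / 16 / C k)
    (fun k => div_pos (by have := hτ0 k; positivity) (hC k))
  obtain ⟨Zm, hZm⟩ := exists_nat_ge l Z0
  obtain ⟨z1, hz1⟩ := energy_main δ ε hδ hε c (l + 1) hc
  refine ⟨max (max z1 Zm) 2, ?_⟩
  intro z hz A hA hcard
  have hzz1 : z1 ≤ z := (le_max_left _ _).trans ((le_max_left _ _).trans hz)
  have hzZm : Zm ≤ z := (le_max_right _ _).trans ((le_max_left _ _).trans hz)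
  have hz2 : 2 ≤ z := (le_max_right _ _).trans hz
  obtain ⟨β, hβ1, hβ2, J, hJ, G, hGA, hG, hgood⟩ := hz1 z hzz1 A hA hcard
  have hzβ : z ≤ 2 ^ β := by
    refine le_trans ?_ hβ1
    calc z = z ^ 1 := (pow_one z).symm
      _ ≤ z ^ (l + 1) := Nat.pow_le_pow_right (by omega) (by omega)
  refine ⟨β, hzβ, ?_⟩
  intro s hs hS
  set B : ℕ := 2 ^ β with hB
  have hB2 : 2 ≤ B := hz2.trans hzβ
  have hBr : (B : ℝ) = (2 : ℝ) ^ β := by rw [hB]; push_cast; rfl
  set Z : ℕ := 2 ^ z with hZ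
  have hZr : (Z : ℝ) = (2 : ℝ) ^ z := by rw [hZ]; push_cast; rfl
  set lz : ℝ := Real.log Z with hlz
  have hlz' : Real.log ((2 : ℝ) ^ z) = lz := by rw [hlz, hZr]
  have hlzeq : lz = z * Real.log 2 := by rw [← hlz', Real.log_pow]
  have hlog2 : 0 < Real.log 2 := Real.log_pos (by norm_num)
  have hlog2' : Real.log 2 ≤ 1 := by
    have := Real.log_two_lt_d9; linarith
  have hz0' : (0 : ℝ) < z := by exact_mod_cast (by omega : 0 < z)
  have hlz0 : 0 < lz := by rw [hlzeq]; positivity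
  have hlzz : lz ≤ z := by rw [hlzeq]; nlinarith
  rw [hlz', ← hZr] at hG
  rw [← hZr, ← hBr] at hJ
  have hcβz : c * β ≤ z := by
    have : (c + 1) * β = c * β + β := Nat.succ_mul c β
    omega
  -- all shifts are small
  have hL2 : 2 ^ z ≤ 2 ^ (B ^ 2) := by
    apply Nat.pow_le_pow_right (by norm_num)
    nlinarith
  have hsmall : ∀ i < l, ∀ u : Fin l → Fin (B ^ 2), s i (X s u i) ≤ 2 ^ (B ^ 2) := by
    intro i hi u
    have h1 := hS i hi u
    have h2 : 2 ^ (c * β) ≤ 2 ^ z := Nat.pow_le_pow_right (by norm_num) hcβz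
    omega
  have hsmall' : ∀ i < l, ∀ u : Fin l → Fin (B ^ 2), X s u i ≤ 2 ^ (B ^ 2) := fun i hi u =>
    ((hs i (X s u i)).le).trans (hsmall i hi u)
  have hmain : ∀ k ≤ l, τ k * (Z / lz ^ (k + 1)) * ((B ^ 2 : ℕ) : ℝ) ^ l ≤
      (TG G A l (B ^ 2) k s).card := by
    intro k
    induction k with
    | zero =>
      intro _
      have h1 : TG G A l (B ^ 2) 0 s = G ×ˢ univ := by
        ext c
        rw [mem_TG, Finset.mem_product]
        constructor
        · rintro ⟨h, _⟩; exact ⟨h, Finset.mem_univ _⟩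
        · rintro ⟨h, _⟩
          refine ⟨h, fun i hi => ?_⟩
          have : i = 0 := by omega
          subst this
          rw [X_zero, add_zero]
          exact hGA h
      rw [h1, Finset.card_product, Finset.card_univ, Fintype.card_fun, Fintype.card_fin,
        Fintype.card_fin]
      simp only [hτ, pow_zero, mul_one, zero_add, pow_one]
      push_cast
      have h2 : (0 : ℝ) ≤ ((B : ℝ) ^ 2) ^ l := by positivity
      exact mul_le_mul_of_nonneg_right hG h2
    | succ k ih =>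
      intro hk
      have hkl : k < l := by omega
      have h1 := step (G := G) (A := A) (J := J) (l := l) (B := B) (k := k) (Z := Z)
        (S := 2 ^ (c * β)) (s := s) hkl hB2 (δ := δ) (ε := ε) (lz := lz) (τ := τ k) (C := C k)
        hδ hε hlz0 (hτ0 k) (hC k) (by positivity)
        (by
          have := hεle k hkl
          rwa [le_div_iff₀ (hC k)] at this) hA hGA hJ
        (by
          intro p hp j h1 h2 h3
          have := hgood p hp j h1 h2 h3
          rw [hlz', ← hBr] at this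
          exact this)
        (hS k hkl)
        (by
          apply hP k Z ((hZm k hkl).trans (hzZm.trans Nat.lt_two_pow_self.le)) l (B ^ 2) s hkl.le
          · calc lz ^ (2 * k + 2) ≤ (z : ℝ) ^ (2 * k + 2) := by gcongr
              _ ≤ (z : ℝ) ^ (2 * (l + 1)) := by
                  apply pow_le_pow_right₀
                  · exact_mod_cast (by omega : 1 ≤ z)
                  · omega
              _ = ((z : ℝ) ^ (l + 1)) ^ 2 := by rw [mul_comm, pow_mul]
              _ ≤ (B : ℝ) ^ 2 := by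
                  have : (z : ℝ) ^ (l + 1) ≤ B := by exact_mod_cast hβ1
                  gcongr
              _ = ((B ^ 2 : ℕ) : ℝ) := by push_cast; rfl
          · exact hs
          · intro u i hi
            exact hsmall' i (by omega) u
          · exact hsmall k hkl)
        (ih hkl.le)
      have h2 : τ (k + 1) = δ / 16 * τ k := by simp only [hτ]; ring
      rw [h2]
      exact h1
  have h1 := hmain l le_rfl
  have h2 : (0 : ℝ) < (TG G A l (B ^ 2) l s).card := by
    refine lt_of_lt_of_le ?_ h1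
    have hZpos : (0 : ℝ) < Z := by rw [hZr]; positivity
    have hBpos : (0 : ℝ) < ((B ^ 2 : ℕ) : ℝ) := by
      have : 0 < B ^ 2 := by positivity
      exact_mod_cast this
    have := hτ0 l
    positivity
  have h3 : 0 < (TG G A l (B ^ 2) l s).card := by exact_mod_cast h2
  obtain ⟨c', hc'⟩ := Finset.card_pos.mp h3
  rw [mem_TG] at hc'
  exact ⟨c'.1, c'.2, hc'.2⟩

end Pool.Agent.Helper57.FP
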